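import Mathlib

/-! The quadratic extension `F[η]`, `η * η = η + w`, of a field of characteristic two. -/

namespace Pool.Agent.MDSR

/-- elements `re + im * η` with `η * η = η + w` -/
@[ext] structure QE (F : Type) (w : F) : Type where
  re : F
  im : F

namespace QE

variable {F : Type} [Field F] {w : F}

instance : Zero (QE F w) := ⟨⟨0, 0⟩⟩
instance : One (QE F w) := ⟨⟨1, 0⟩⟩
instance : Add (QE F w) := ⟨fun x y => ⟨x.re + y.re, x.im + y.im⟩⟩
instance : Neg (QE F w) := ⟨fun x => ⟨-x.re, -x.im⟩⟩
instance : Mul (QE F w) := ⟨fun x y =>
  ⟨x.re * y.re + w * (x.im * y.im), x.re * y.im + x.im * y.re + x.im * y.im⟩⟩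

theorem zero_re : (0 : QE F w).re = 0 := rfl
theorem zero_im : (0 : QE F w).im = 0 := rfl
theorem one_re : (1 : QE F w).re = 1 := rfl
theorem one_im : (1 : QE F w).im = 0 := rfl
theorem add_re (x y : QE F w) : (x + y).re = x.re + y.re := rfl
theorem add_im (x y : QE F w) : (x + y).im = x.im + y.im := rfl
theorem neg_re (x : QE F w) : (-x).re = -x.re := rfl
theorem neg_im (x : QE F w) : (-x).im = -x.im := rfl
theorem mul_re (x y : QE F w) : (x * y).re = x.re * y.re + w * (x.im * y.im) := rfl
theorem mul_im (x y : QE F w) :
    (x * y).im = x.re * y.im + x.im * y.re + x.im * y.im := rfl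

instance : CommRing (QE F w) where
  add_assoc := by intro a b c; ext <;> simp only [add_re, add_im] <;> ring
  zero_add := by intro a; ext <;> simp only [add_re, add_im, zero_re, zero_im] <;> ring
  add_zero := by intro a; ext <;> simp only [add_re, add_im, zero_re, zero_im] <;> ring
  add_comm := by intro a b; ext <;> simp only [add_re, add_im] <;> ring
  neg_add_cancel := by
    intro a; ext <;> simp only [add_re, add_im, neg_re, neg_im, zero_re, zero_im] <;> ring
  mul_assoc := by
    intro a b c; ext <;> simp only [mul_re, mul_im] <;> ring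
  one_mul := by
    intro a; ext <;> simp only [mul_re, mul_im, one_re, one_im] <;> ring
  mul_one := by
    intro a; ext <;> simp only [mul_re, mul_im, one_re, one_im] <;> ring
  mul_comm := by intro a b; ext <;> simp only [mul_re, mul_im] <;> ring
  left_distrib := by
    intro a b c; ext <;> simp only [mul_re, mul_im, add_re, add_im] <;> ring
  right_distrib := by
    intro a b c; ext <;> simp only [mul_re, mul_im, add_re, add_im] <;> ring
  zero_mul := by
    intro a; ext <;> simp only [mul_re, mul_im, zero_re, zero_im] <;> ring
  mul_zero := by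
    intro a; ext <;> simp only [mul_re, mul_im, zero_re, zero_im] <;> ring
  nsmul := nsmulRec
  zsmul := zsmulRec

/-- the norm form -/
def N (x : QE F w) : F := x.re * x.re + x.re * x.im + w * (x.im * x.im)

/-- the conjugate -/
def conj (x : QE F w) : QE F w := ⟨x.re + x.im, x.im⟩

/-- the inclusion of `F` -/
def of (a : F) : QE F w := ⟨a, 0⟩

theorem of_re (a : F) : (of a : QE F w).re = a := rfl
theorem of_im (a : F) : (of a : QE F w).im = 0 := rfl
theorem conj_re (x : QE F w) : (conj x).re = x.re + x.im := rfl
theorem conj_im (x : QE F w) : (conj x).im = x.im := rfl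

variable [CharP F 2]

theorem two_zero : (2 : F) = 0 := CharTwo.two_eq_zero

theorem two_zeroK : (2 : QE F w) = 0 := by
  have h : (2 : QE F w) = 1 + 1 := by norm_num
  rw [h]
  ext
  · rw [add_re, one_re, zero_re]; exact CharTwo.add_self_eq_zero 1
  · rw [add_im, one_im, zero_im]; simp

theorem mul_conj (x : QE F w) : x * conj x = of (N x) := by
  have h2 := two_zero (F := F)
  ext
  · simp only [mul_re, conj_re, conj_im, of_re, N]; ring
  · simp only [mul_im, conj_re, conj_im, of_im]
    linear_combination (x.re * x.im + x.im * x.im) * h2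

theorem N_mul (x y : QE F w) : N (x * y) = N x * N y := by
  have h2 := two_zero (F := F)
  simp only [N, mul_re, mul_im]
  linear_combination (w * x.im * y.im * (x.re * y.re) + w * x.im * y.im * x.re * y.re
    + w * x.im * y.im * x.re * y.im + w * x.im * y.im * x.im * y.re
    + w * x.im ^ 2 * y.im ^ 2) * h2

theorem N_add (x y : QE F w) : N (x + y) = N x + N y + (x * conj y).im := by
  have h2 := two_zero (F := F)
  simp only [N, add_re, add_im, mul_im, conj_re, conj_im]
  linear_combination (x.re * y.re + w * (x.im * y.im) - x.im * y.im) * h2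

theorem N_conj (x : QE F w) : N (conj x) = N x := by
  have h2 := two_zero (F := F)
  simp only [N, conj_re, conj_im]
  linear_combination (x.re * x.im + x.im * x.im) * h2

theorem N_of (a : F) : N (of a : QE F w) = a * a := by
  simp [N, of]

theorem N_one : N (1 : QE F w) = 1 := by
  simp [N, one_re, one_im]

theorem N_ne_zero (hw : ∀ u : F, u * u + u + w ≠ 0) {x : QE F w} (hx : x ≠ 0) : N x ≠ 0 := by
  intro h
  by_cases him : x.im = 0
  · apply hx
    ext
    · rw [zero_re]
      simp only [N, him, mul_zero, add_zero] at h
      exact mul_self_eq_zero.1 h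
    · rw [zero_im]; exact him
  · apply hw (x.re / x.im)
    field_simp
    unfold N at h
    linear_combination h

theorem N_zero : N (0 : QE F w) = 0 := by simp [N, zero_re, zero_im]

open Classical in
/-- the field structure -/
noncomputable def toField (hw : ∀ u : F, u * u + u + w ≠ 0) : Field (QE F w) where
  inv x := if x = 0 then 0 else of (N x)⁻¹ * conj x
  exists_pair_ne := ⟨0, 1, by
    intro h
    have := congrArg QE.re h
    rw [zero_re, one_re] at this
    exact zero_ne_one this⟩
  mul_inv_cancel := by
    intro x hx
    rw [if_neg hx]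
    have h1 : x * (of (N x)⁻¹ * conj x) = of (N x)⁻¹ * (x * conj x) := by ring
    rw [h1, mul_conj]
    have hN := N_ne_zero hw hx
    ext
    · simp only [mul_re, of_re, of_im, one_re]
      field_simp
      ring
    · simp only [mul_im, of_re, of_im, one_im]
      ring
  inv_zero := by rw [if_pos rfl]
  nnqsmul := _
  nnqsmul_def := fun _ _ => rfl
  qsmul := _
  qsmul_def := fun _ _ => rfl

end QE

end Pool.Agent.MDSR
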