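import Mathlib
import Pool.Agent.MDSR.Quad

/-! The arithmetic core: differences of two concentric circles. -/

namespace Pool.Agent.MDSR

open QE

variable {F : Type} [Field F] [CharP F 2] {w : F}

/-- Core incompatibility. -/
theorem core (hw : ∀ u : F, u * u + u + w ≠ 0) {m k y z c : F} (hm0 : m ≠ 0) (hm1 : 1 + m ≠ 0)
    (hk : (1 + c) * k = 1) (hy : y * y + (1 + m) * y = m * k)
    {d : F} (hd0 : d ≠ 0) (hz : d * (z * z + z) = k * k + k)
    {x1 x2 δ : QE F w} (hx : x1 + x2 = δ) (hT : δ.im = m) (hN : N δ = d)
    (h1 : N x1 + x1.im + 1 = N x1 ∨ N x1 + x1.im + 1 = c * N x1)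
    (h2' : N x2 + x2.im + 1 = N x2 ∨ N x2 + x2.im + 1 = c * N x2) : False := by
  have h2 := two_zero (F := F)
  have hTx : x1.im + x2.im = m := by rw [← hT, ← hx, add_im]
  -- the mixed case
  have mixed : ∀ x : QE F w, x.im = 1 + m → N x + x.im + 1 = c * N x → False := by
    intro x hxim hxN
    have hNx : N x = m * k := by
      have : (1 + c) * N x = m := by
        rw [hxim] at hxN
        linear_combination (1 + N x) * h2 - hxN
      calc N x = ((1 + c) * k) * N x := by rw [hk]; ring
        _ = k * ((1 + c) * N x) := by ring
        _ = m * k := by rw [this]; ring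
    apply hw ((x.re + y) / (1 + m))
    field_simp
    unfold N at hNx
    rw [hxim] at hNx
    linear_combination hNx - hy + (x.re * y + y * y + y * (1 + m)) * h2
  rcases h1 with h1 | h1 <;> rcases h2' with h2' | h2'
  · -- both on the line
    apply hm0
    linear_combination -hTx + h1 + h2' - h2 + 0 * hk
  · apply mixed x2 _ h2'
    linear_combination hTx - h1 + 0 * hk
  · apply mixed x1 _ h1
    linear_combination hTx - h2' + 0 * hk
  · -- both on the circle
    have hN1 : N x1 = k * (x1.im + 1) := by
      calc N x1 = ((1 + c) * k) * N x1 := by rw [hk]; ring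
        _ = k * ((1 + c) * N x1) := by ring
        _ = k * (x1.im + 1) := by
          congr 1
          linear_combination (N x1) * h2 - h1
    have hN2 : N x2 = k * (x2.im + 1) := by
      calc N x2 = ((1 + c) * k) * N x2 := by rw [hk]; ring
        _ = k * ((1 + c) * N x2) := by ring
        _ = k * (x2.im + 1) := by
          congr 1
          linear_combination (N x2) * h2 - h2'
    -- shift by `k`
    have hX : ∀ x : QE F w, N x = k * (x.im + 1) → N (x + of k) = k * k + k := by
      intro x hx
      unfold N at hx ⊢
      simp only [add_re, add_im, of_re, of_im]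
      linear_combination hx + (x.re * k + k * x.im) * h2
    have hX1 := hX x1 hN1
    have hX2 := hX x2 hN2
    have hsum : x2 + of k = (x1 + of k) + δ := by
      rw [← hx]
      ext
      · simp only [add_re, of_re]; linear_combination (-x1.re) * h2
      · simp only [add_im, of_im]; linear_combination (-x1.im) * h2
    rw [hsum, N_add, hX1, hN] at hX2
    have hTY : ((x1 + of k) * conj δ).im = d := by
      linear_combination hX2 + (-d) * h2 + 0 * hk
    have hNY : N ((x1 + of k) * conj δ) = (k * k + k) * d := by
      rw [N_mul, N_conj, hX1, hN]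
    generalize hY : (x1 + of k) * conj δ = Y at hTY hNY
    apply hw (Y.re / d + z)
    unfold N at hNY
    rw [hTY] at hNY
    field_simp
    linear_combination hNY - d * hz + (Y.re * d * z + d * (z * z + z) * d) * h2

end Pool.Agent.MDSR
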