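import Mathlib
import Pool.Agent.MDSR.Core

/-! The arc built from two conics with a common nucleus. -/

namespace Pool.Agent.MDSR

open QE

variable {F : Type} [Field F] [CharP F 2] {w : F}

theorem mulK_ne (hw : ∀ u : F, u * u + u + w ≠ 0) {x y : QE F w} (hx : x ≠ 0) (hy : y ≠ 0) :
    x * y ≠ 0 := by
  intro h
  have h1 := N_mul x y
  rw [h, N_zero] at h1
  exact mul_ne_zero (N_ne_zero hw hx) (N_ne_zero hw hy) h1.symm

theorem exists_inv (hw : ∀ u : F, u * u + u + w ≠ 0) {x : QE F w} (hx : x ≠ 0) :
    ∃ y, y * x = 1 := by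
  refine ⟨of (N x)⁻¹ * conj x, ?_⟩
  have hN := N_ne_zero hw hx
  have h1 : of (N x)⁻¹ * conj x * x = of (N x)⁻¹ * (x * conj x) := by ring
  rw [h1, mul_conj]
  ext
  · simp only [mul_re, of_re, of_im, one_re]
    field_simp
    ring
  · simp only [mul_im, of_re, of_im, one_im]
    ring

theorem addK_ne {x y : QE F w} (h : x ≠ y) : x + y ≠ 0 := by
  intro h0
  apply h
  have h2 := two_zeroK (F := F) (w := w)
  linear_combination h0 - y * h2

theorem circ {t t3 p x : QE F w} {c : F} (hp : p * (t + t3) = 1) (hx : x = t3 * p)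
    (hN : N t = c * N t3) : N x + x.im + 1 = c * N x := by
  have h2 := two_zeroK (F := F) (w := w)
  have h1 : x + 1 = t * p := by
    rw [hx]
    linear_combination t3 * p * h2 - hp
  have h3 : N (x + 1) = N x + 1 + x.im := by
    rw [N_add, N_one]
    congr 1
    simp only [mul_im, conj_re, conj_im, one_re, one_im]
    ring
  have h4 : N (x + 1) = c * N x := by
    rw [h1, N_mul, hN, hx, N_mul]
    ring
  rw [← h4, h3]
  ring

/-- the parameters of the construction -/
structure Params (F : Type) [Field F] (w : F) where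
  hw : ∀ u : F, u * u + u + w ≠ 0
  m : F
  k : F
  a : F
  y : F
  z : F
  hm : w * (m * m) = 1
  hm1 : 1 + m ≠ 0
  hk : (1 + a) * k = 1
  hk1 : k ≠ 1
  hy : y * y + (1 + m) * y = m * k
  hz : m * (z * z + z) = k * k + k

namespace Params

variable (P : Params F w)

include P in
theorem m_ne : P.m ≠ 0 := by
  intro h
  have := P.hm
  rw [h] at this
  simp at this

include P in
theorem a_ne : P.a ≠ 0 := by
  intro h
  have := P.hk
  rw [h] at this
  apply P.hk1
  linear_combination this

include P in
theorem a_ne_one : P.a ≠ 1 := by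
  intro h
  have := P.hk
  rw [h] at this
  have h2 := two_zero (F := F)
  have h3 : (1 : F) = 0 := by linear_combination P.k * h2 - this
  exact one_ne_zero h3

/-- the special element of norm one -/
def mu : QE F w := ⟨0, P.m⟩

theorem N_mu : N P.mu = 1 := by
  simp only [N, mu]
  linear_combination P.hm

theorem mu_im : P.mu.im = P.m := rfl

/-- the second conic parameter -/
def lam : QE F w := 1 + P.mu

/-- the parameters of the two conics -/
def kap : Bool → QE F w
  | false => 1
  | true => P.lam

theorem mu_ne : P.mu ≠ 0 := by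
  intro h
  have := congrArg QE.im h
  exact P.m_ne this

theorem lam_ne : P.lam ≠ 0 := by
  intro h
  have := congrArg QE.im h
  simp only [lam, add_im, one_im, mu_im, zero_im, zero_add] at this
  exact P.m_ne this

theorem kap_ne (b : Bool) : P.kap b ≠ 0 := by
  cases b
  · intro h
    have := congrArg QE.re h
    exact one_ne_zero this
  · exact P.lam_ne

theorem kap_add (b : Bool) : P.kap b + P.kap (!b) = P.mu := by
  have h2 := two_zeroK (F := F) (w := w)
  cases b
  · simp only [kap, lam, Bool.not_false]
    linear_combination h2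
  · simp only [kap, lam, Bool.not_true]
    linear_combination h2

/-- the difference attached to a conic -/
def del (b : Bool) : QE F w := P.kap b * conj P.mu

theorem mu_conj : P.mu * conj P.mu = 1 := by
  rw [mul_conj, N_mu]; rfl

theorem del_im (b : Bool) : (P.del b).im = P.m := by
  cases b
  · simp only [del, kap, one_mul, conj_im, mu_im]
  · simp only [del, kap, lam, mu, mul_im, add_re, add_im, one_re, one_im, conj_re, conj_im]
    have h2 := two_zero (F := F)
    linear_combination (P.m * P.m) * h2

theorem del_N (b : Bool) : N (P.del b) = 1 ∨ N (P.del b) = P.m := by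
  cases b
  · left
    simp only [del, kap, one_mul, N_conj, N_mu]
  · right
    simp only [del, kap, N_mul, N_conj, N_mu, mul_one]
    rw [lam, N_add, N_one, N_mu]
    simp only [mul_im, mu, conj_re, conj_im, one_re, one_im]
    have h2 := two_zero (F := F)
    linear_combination h2

theorem E_ne {t1 t2 t3 : QE F w} (b : Bool)
    (h1 : N t1 = 1 ∨ N t1 = P.a) (h2 : N t2 = 1 ∨ N t2 = P.a) (h3 : N t3 = 1 ∨ N t3 = P.a)
    (h12 : t1 ≠ t2) :
    P.kap (!b) * t3 * (t1 + t2) + P.kap b * (t1 * t2 + t3 * t3) ≠ 0 := by
  intro hE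
  have hh := two_zeroK (F := F) (w := w)
  have hh2 := two_zero (F := F)
  have hw := P.hw
  have hne : ∀ t : QE F w, (N t = 1 ∨ N t = P.a) → t ≠ 0 := by
    intro t ht h0
    rw [h0, N_zero] at ht
    rcases ht with ht | ht
    · exact one_ne_zero ht.symm
    · exact P.a_ne ht.symm
  have hmu := P.kap_add b
  by_cases h13 : t1 = t3
  · subst h13
    have : P.mu * (t1 * (t1 + t2)) = 0 := by
      rw [← hmu]
      linear_combination hE
    exact mulK_ne hw P.mu_ne (mulK_ne hw (hne _ h1) (addK_ne h12)) this
  by_cases h23 : t2 = t3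
  · subst h23
    have : P.mu * (t2 * (t1 + t2)) = 0 := by
      rw [← hmu]
      linear_combination hE
    exact mulK_ne hw P.mu_ne (mulK_ne hw (hne _ h2) (addK_ne h12)) this
  obtain ⟨p1, hp1⟩ := exists_inv hw (addK_ne h13)
  obtain ⟨p2, hp2⟩ := exists_inv hw (addK_ne h23)
  have hsum : t3 * p1 + t3 * p2 = P.del b := by
    have key : (P.kap b + P.kap (!b)) * (t3 * p1 + t3 * p2) = P.kap b := by
      linear_combination (p1 * p2) * hE
        + (-(P.kap b) - (P.kap b + P.kap (!b)) * t3 * p2 ) * (hp1)
        + (-(P.kap b) * p1 * (t1 + t3) - (P.kap b + P.kap (!b)) * t3 * p1) * hp2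
        + (-(P.kap b) + P.kap b * t3 * p1 * p2 * (t1 + t2 + t3)
          + P.kap (!b) * t3 * t3 * p1 * p2) * hh
    rw [hmu] at key
    calc t3 * p1 + t3 * p2 = (P.mu * conj P.mu) * (t3 * p1 + t3 * p2) := by
          rw [mu_conj, one_mul]
      _ = (P.mu * (t3 * p1 + t3 * p2)) * conj P.mu := by ring
      _ = P.del b := by rw [key, del]
  have hd := P.del_N b
  -- existence of `z` for the relevant norm
  have hz1 : ∀ d : F, (d = 1 ∨ d = P.m) → ∃ z, d * (z * z + z) = P.k * P.k + P.k := by
    rintro d (rfl | rfl)
    · exact ⟨P.k, by ring⟩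
    · exact ⟨P.z, P.hz⟩
  obtain ⟨z, hz⟩ := hz1 _ hd
  have hd0 : N (P.del b) ≠ 0 := by
    rcases hd with hd | hd
    · rw [hd]; exact one_ne_zero
    · rw [hd]; exact P.m_ne
  rcases h3 with h3 | h3
  · -- `t3` on the unit circle
    refine core hw (k := P.k) (y := P.y) (z := z) (c := P.a) P.m_ne P.hm1 P.hk P.hy hd0 hz
      hsum (P.del_im b) rfl ?_ ?_
    · rcases h1 with h1 | h1
      · left
        have := circ (c := 1) hp1 rfl (by rw [h1, h3]; ring)
        rwa [one_mul] at this
      · right
        exact circ hp1 rfl (by rw [h1, h3]; ring)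
    · rcases h2 with h2 | h2
      · left
        have := circ (c := 1) hp2 rfl (by rw [h2, h3]; ring)
        rwa [one_mul] at this
      · right
        exact circ hp2 rfl (by rw [h2, h3]; ring)
  · have ha := P.a_ne
    refine core hw (k := 1 + P.k) (y := P.y + 1) (z := z) (c := P.a⁻¹) P.m_ne P.hm1 ?_ ?_ hd0 ?_
      hsum (P.del_im b) rfl ?_ ?_
    · field_simp
      linear_combination P.hk + hh2
    · linear_combination P.hy + (1 + P.y) * hh2
    · linear_combination hz - (1 + P.k) * hh2
    · rcases h1 with h1 | h1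
      · right
        exact circ hp1 rfl (by rw [h1, h3]; field_simp)
      · left
        have := circ (c := 1) hp1 rfl (by rw [h1, h3]; ring)
        rwa [one_mul] at this
    · rcases h2 with h2 | h2
      · right
        exact circ hp2 rfl (by rw [h2, h3]; field_simp)
      · left
        have := circ (c := 1) hp2 rfl (by rw [h2, h3]; ring)
        rwa [one_mul] at this

end Params

end Pool.Agent.MDSR
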