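import Mathlib

/-! MDS array codes, repair bandwidth, repair access, and the lower bound. -/

namespace Pool.Agent.MDSR

open Matrix Finset

/-- The square block matrix `[H_{I 0} ... H_{I (r-1)}]`. -/
def blockOf {F : Type} {n r l : ℕ} (H : Fin n → Matrix (Fin r × Fin l) (Fin l) F)
    (I : Fin r → Fin n) : Matrix (Fin r × Fin l) (Fin r × Fin l) F :=
  fun a p => H (I p.1) a p.2

/-- The parity-check blocks `H_1, ..., H_n` (each of size `rl` by `l`) define an MDS array code:
any `r` of them, side by side, form an invertible matrix. -/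
def IsMDS {F : Type} [Field F] {n r l : ℕ} (H : Fin n → Matrix (Fin r × Fin l) (Fin l) F) :
    Prop :=
  ∀ I : Fin r → Fin n, Function.Injective I → IsUnit (blockOf H I)

/-- `M` is a repair matrix for the node `i`. -/
def IsRepair {F : Type} [Field F] {n r l : ℕ} (H : Fin n → Matrix (Fin r × Fin l) (Fin l) F)
    (i : Fin n) (M : Matrix (Fin l) (Fin r × Fin l) F) : Prop :=
  IsUnit (M * H i)

/-- The repair bandwidth `BW_i(M)`. -/
noncomputable def BW {F : Type} [Field F] {n r l : ℕ}
    (H : Fin n → Matrix (Fin r × Fin l) (Fin l) F)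
    (i : Fin n) (M : Matrix (Fin l) (Fin r × Fin l) F) : ℕ :=
  ∑ j ∈ univ.erase i, (M * H j).rank

open Classical in
/-- The number of nonzero columns of a matrix. -/
noncomputable def nz {F : Type} [Field F] {l : ℕ} (A : Matrix (Fin l) (Fin l) F) : ℕ :=
  (univ.filter fun c => ∃ a, A a c ≠ 0).card

/-- The repair access `IO_i(M)`. -/
noncomputable def IOc {F : Type} [Field F] {n r l : ℕ}
    (H : Fin n → Matrix (Fin r × Fin l) (Fin l) F)
    (i : Fin n) (M : Matrix (Fin l) (Fin r × Fin l) F) : ℕ :=
  ∑ j ∈ univ.erase i, nz (M * H j)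

/-- `β_i`: the minimum of `BW_i` over the repair matrices for `i`. -/
noncomputable def beta {F : Type} [Field F] {n r l : ℕ}
    (H : Fin n → Matrix (Fin r × Fin l) (Fin l) F) (i : Fin n) : ℕ :=
  sInf {b | ∃ M, IsRepair H i M ∧ BW H i M = b}

/-- `γ_i`: the minimum of `IO_i` over the repair matrices for `i`. -/
noncomputable def gamma {F : Type} [Field F] {n r l : ℕ}
    (H : Fin n → Matrix (Fin r × Fin l) (Fin l) F) (i : Fin n) : ℕ :=
  sInf {b | ∃ M, IsRepair H i M ∧ IOc H i M = b}

/-- The bound `B(n,r,l,q) = l(n-1) - (r-1)(q^l-1)/(q-1)`. -/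
noncomputable def bound (n r l q : ℕ) : ℚ :=
  (l : ℚ) * ((n : ℚ) - 1) - ((r : ℚ) - 1) * (((q : ℚ) ^ l - 1) / ((q : ℚ) - 1))

theorem vecMul_zero_of_isUnit {F : Type} [Field F] {m : Type} [Fintype m] [DecidableEq m]
    {A : Matrix m m F} (hA : IsUnit A) {v : m → F} (hv : v ᵥ* A = 0) : v = 0 := by
  have h := Matrix.vecMul_injective_of_isUnit hA
  apply h
  simpa using hv

theorem card_ker {F : Type} [Field F] [Fintype F] [DecidableEq F] {l : ℕ}
    (N : Matrix (Fin l) (Fin l) F) :
    (univ.filter fun a : Fin l → F => a ᵥ* N = 0).card = Fintype.card F ^ (l - N.rank) := by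
  have h1 := (Nᵀ.mulVecLin).finrank_range_add_finrank_ker
  have h2 : Module.finrank F (LinearMap.range Nᵀ.mulVecLin) = N.rank := by
    rw [← Matrix.rank_transpose N]; rfl
  rw [h2] at h1
  have h3 : Module.finrank F (Fin l → F) = l := by simp
  rw [h3] at h1
  have h4 : Module.finrank F (LinearMap.ker Nᵀ.mulVecLin) = l - N.rank := by omega
  rw [← h4, ← Nat.card_eq_fintype_card, ← Module.natCard_eq_pow_finrank (K := F)]
  rw [← Fintype.card_coe, ← Nat.card_eq_fintype_card]
  apply Nat.card_congr
  refine Equiv.subtypeEquivRight ?_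
  intro a
  simp [Matrix.mulVec_transpose]

theorem bern (q d : ℕ) (hq : 1 ≤ q) : d * (q - 1) + 1 ≤ q ^ d := by
  obtain ⟨p, rfl⟩ : ∃ p, q = p + 1 := ⟨q - 1, by omega⟩
  induction d with
  | zero => simp
  | succ d ih =>
    have h : (p + 1) ^ (d + 1) = (p + 1) ^ d * (p + 1) := pow_succ _ _
    rw [h]
    simp only [Nat.add_sub_cancel] at ih ⊢
    have h2 : (d * p + 1) * (p + 1) ≤ (p + 1) ^ d * (p + 1) := Nat.mul_le_mul_right _ ih
    refine le_trans ?_ h2
    nlinarith [Nat.zero_le (d * p * p)]

/-- a nonzero functional kills at most `r - 1` blocks -/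
theorem killed_le {F : Type} [Field F] [DecidableEq F] {n r l : ℕ} (hr : 1 ≤ r)
    (H : Fin n → Matrix (Fin r × Fin l) (Fin l) F) (hM : IsMDS H) (i : Fin n)
    (M : Matrix (Fin l) (Fin r × Fin l) F) (hrep : IsRepair H i M)
    (a : Fin l → F) (ha : a ≠ 0) :
    ((univ.erase i).filter fun j => a ᵥ* (M * H j) = 0).card ≤ r - 1 := by
  by_contra hcon
  have hcard : r ≤ ((univ.erase i).filter fun j => a ᵥ* (M * H j) = 0).card := by omega
  obtain ⟨S, hS, hSc⟩ := Finset.exists_subset_card_eq hcard
  let e := S.orderEmbOfFin hSc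
  have hinj : Function.Injective (fun c : Fin r => e c) := e.injective
  have hu := hM (fun c => e c) hinj
  have hz : (a ᵥ* M) ᵥ* blockOf H (fun c => e c) = 0 := by
    ext p
    have hmem : e p.1 ∈ S := S.orderEmbOfFin_mem hSc p.1
    have h2 := (Finset.mem_filter.1 (hS hmem)).2
    rw [← Matrix.vecMul_vecMul] at h2
    have h3 := congrFun h2 p.2
    simpa [Matrix.vecMul, dotProduct, blockOf] using h3
  have haM : a ᵥ* M = 0 := vecMul_zero_of_isUnit hu hz
  apply ha
  apply vecMul_zero_of_isUnit hrep
  rw [← Matrix.vecMul_vecMul, haM, Matrix.zero_vecMul]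

/-- the lower bound, in the form of a bound for the total rank deficiency -/
theorem deficiency_le {F : Type} [Field F] [Fintype F] [DecidableEq F] {n r l : ℕ} (hr : 1 ≤ r)
    (H : Fin n → Matrix (Fin r × Fin l) (Fin l) F) (hM : IsMDS H) (i : Fin n)
    (M : Matrix (Fin l) (Fin r × Fin l) F) (hrep : IsRepair H i M) :
    (∑ j ∈ univ.erase i, (l - (M * H j).rank)) * (Fintype.card F - 1)
      ≤ (r - 1) * (Fintype.card F ^ l - 1) := by
  have hq : 1 ≤ Fintype.card F := Fintype.card_pos
  have h1 : ∀ j : Fin n, (l - (M * H j).rank) * (Fintype.card F - 1) ≤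
      ((univ.filter fun a : Fin l → F => a ≠ 0).filter fun a => a ᵥ* (M * H j) = 0).card := by
    intro j
    have hb := bern (Fintype.card F) (l - (M * H j).rank) hq
    rw [← card_ker] at hb
    have hs : (univ.filter fun a : Fin l → F => a ᵥ* (M * H j) = 0) =
        insert 0 ((univ.filter fun a : Fin l → F => a ≠ 0).filter
          fun a => a ᵥ* (M * H j) = 0) := by
      ext a
      simp only [Finset.mem_filter, Finset.mem_univ, true_and, Finset.mem_insert]
      constructor
      · intro h
        by_cases h0 : a = 0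
        · left; exact h0
        · right; exact ⟨h0, h⟩
      · rintro (h | h)
        · rw [h, Matrix.zero_vecMul]
        · exact h.2
    rw [hs, Finset.card_insert_of_notMem (by simp)] at hb
    omega
  rw [Finset.sum_mul]
  refine (Finset.sum_le_sum fun j _ => h1 j).trans ?_
  have h2 : ∑ j ∈ univ.erase i,
      ((univ.filter fun a : Fin l → F => a ≠ 0).filter fun a => a ᵥ* (M * H j) = 0).card =
      ∑ a ∈ univ.filter fun a : Fin l → F => a ≠ 0,
        ((univ.erase i).filter fun j => a ᵥ* (M * H j) = 0).card := by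
    simp only [Finset.card_filter]
    rw [Finset.sum_comm]
  rw [h2]
  refine (Finset.sum_le_sum fun a ha => killed_le hr H hM i M hrep a
    (Finset.mem_filter.1 ha).2).trans ?_
  rw [Finset.sum_const, smul_eq_mul, mul_comm]
  apply Nat.mul_le_mul_left
  have h3 : (univ.filter fun a : Fin l → F => a ≠ 0) = univ.erase 0 := by
    ext a; simp
  rw [h3, Finset.card_erase_of_mem (Finset.mem_univ _)]
  simp

theorem rank_le_nz {F : Type} [Field F] {l : ℕ} (A : Matrix (Fin l) (Fin l) F) :
    A.rank ≤ nz A := by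
  classical
  rw [Matrix.rank_eq_finrank_span_cols]
  have hsub : Submodule.span F (Set.range A.col) ≤
      Submodule.span F (((univ.filter fun c => ∃ a, A a c ≠ 0).image A.col : Finset _) :
        Set (Fin l → F)) := by
    rw [Submodule.span_le]
    rintro _ ⟨c, rfl⟩
    by_cases hc : ∃ a, A a c ≠ 0
    · apply Submodule.subset_span
      simp only [Finset.coe_image, Finset.coe_filter, Finset.mem_univ, true_and]
      exact ⟨c, hc, rfl⟩
    · push_neg at hc
      have : A.col c = 0 := by ext a; exact hc a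
      rw [this]
      exact Submodule.zero_mem _
  refine (Submodule.finrank_mono hsub).trans ?_
  refine (finrank_span_finset_le_card _).trans ?_
  refine Finset.card_image_le.trans ?_
  unfold nz
  apply le_of_eq
  congr

theorem BW_le_IO {F : Type} [Field F] {n r l : ℕ}
    (H : Fin n → Matrix (Fin r × Fin l) (Fin l) F)
    (i : Fin n) (M : Matrix (Fin l) (Fin r × Fin l) F) : BW H i M ≤ IOc H i M :=
  Finset.sum_le_sum fun _ _ => rank_le_nz _

end Pool.Agent.MDSR
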