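import Mathlib
import Pool.Agent.MDSR.Arc
import Pool.Agent.MDSR.Defs

/-! The array code of the arc, and its repair. -/

namespace Pool.Agent.MDSR

open QE Matrix Finset

variable {F : Type} [Field F] {w : F}

namespace QE

/-- multiplication by `x` in the basis `1, η` -/
def rhoFun (x : QE F w) : Matrix (Fin 2) (Fin 2) F :=
  !![x.re, w * x.im; x.im, x.re + x.im]

/-- the regular representation -/
def rho : QE F w →+* Matrix (Fin 2) (Fin 2) F where
  toFun := rhoFun
  map_one' := by
    ext a b; fin_cases a <;> fin_cases b <;> simp [rhoFun, one_re, one_im]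
  map_zero' := by
    ext a b; fin_cases a <;> fin_cases b <;> simp [rhoFun, zero_re, zero_im]
  map_add' := by
    intro x y
    ext a b; fin_cases a <;> fin_cases b <;> simp [rhoFun, add_re, add_im] <;> ring
  map_mul' := by
    intro x y
    ext a b
    fin_cases a <;> fin_cases b <;>
      simp [rhoFun, mul_re, mul_im, Matrix.mul_apply, Fin.sum_univ_two] <;> ring

end QE

/-- the block of a vector over the quadratic extension -/
def blk (h : Fin 3 → QE F w) : Matrix (Fin 3 × Fin 2) (Fin 2) F :=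
  fun p b => QE.rhoFun (h p.1) p.2 b

/-- a three by three determinant (characteristic two) -/
def det3K (x y z : Fin 3 → QE F w) : QE F w :=
  x 0 * (y 1 * z 2 + y 2 * z 1) + x 1 * (y 0 * z 2 + y 2 * z 0) + x 2 * (y 0 * z 1 + y 1 * z 0)

/-- passing to blocks -/
noncomputable def toBlk :
    Matrix (Fin 3) (Fin 3) (QE F w) →+* Matrix (Fin 3 × Fin 2) (Fin 3 × Fin 2) F :=
  (Matrix.compRingEquiv (Fin 3) (Fin 2) F).toRingHom.comp (QE.rho (F := F) (w := w)).mapMatrix

variable [CharP F 2]

theorem det_eqK (A : Matrix (Fin 3) (Fin 3) (QE F w)) :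
    A.det = det3K (fun k => A k 0) (fun k => A k 1) (fun k => A k 2) := by
  have h2 := two_zeroK (F := F) (w := w)
  rw [Matrix.det_fin_three]
  simp only [det3K]
  linear_combination (-(A 0 0 * A 1 2 * A 2 1) - A 0 1 * A 1 0 * A 2 2 - A 0 2 * A 1 1 * A 2 0)
    * h2

theorem mds_of {n : ℕ} (hw : ∀ u : F, u * u + u + w ≠ 0) (h : Fin n → Fin 3 → QE F w)
    (hd : ∀ a b c : Fin n, a ≠ b → a ≠ c → b ≠ c → det3K (h a) (h b) (h c) ≠ 0) :
    IsMDS (fun j => blk (h j)) := by
  intro I hI
  have hh : blockOf (fun j => blk (h j)) I = toBlk (fun k c => h (I c) k) := by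
    ext ⟨k, a⟩ ⟨c, b⟩
    rfl
  rw [hh]
  apply IsUnit.map
  rw [Matrix.isUnit_iff_isUnit_det]
  have hne : (Matrix.det (fun k c => h (I c) k : Matrix (Fin 3) (Fin 3) (QE F w))) ≠ 0 := by
    rw [det_eqK]
    apply hd
    · exact fun h => absurd (hI h) (by decide)
    · exact fun h => absurd (hI h) (by decide)
    · exact fun h => absurd (hI h) (by decide)
  obtain ⟨y, hy⟩ := exists_inv hw hne
  exact IsUnit.of_mul_eq_one y (by rw [mul_comm]; exact hy)

/-- the inverse of `t` -/
noncomputable def tinv (t : QE F w) : QE F w := of (N t)⁻¹ * conj t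

theorem mul_tinv {t : QE F w} (ht : N t ≠ 0) : t * tinv t = 1 := by
  unfold tinv
  have h1 : t * (of (N t)⁻¹ * conj t) = of (N t)⁻¹ * (t * conj t) := by ring
  rw [h1, mul_conj]
  ext
  · simp only [mul_re, of_re, of_im, one_re]
    field_simp
    ring
  · simp only [mul_im, of_re, of_im, one_im]
    ring

/-- the vector of a node -/
noncomputable def hv (t κ : QE F w) : Fin 3 → QE F w := ![t, tinv t, κ]

namespace Params

variable (P : Params F w)

theorem N_ne {t : QE F w} (h : N t = 1 ∨ N t = P.a) : N t ≠ 0 := by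
  rcases h with h | h
  · rw [h]; exact one_ne_zero
  · rw [h]; exact P.a_ne

/-- the cleared determinant -/
def D (t1 κ1 t2 κ2 t3 κ3 : QE F w) : QE F w :=
  κ3 * t3 * (t1 * t1 + t2 * t2) + κ2 * t2 * (t1 * t1 + t3 * t3) + κ1 * t1 * (t2 * t2 + t3 * t3)

theorem D_mixed {t1 t2 t3 : QE F w} (b : Bool)
    (h1 : N t1 = 1 ∨ N t1 = P.a) (h2 : N t2 = 1 ∨ N t2 = P.a) (h3 : N t3 = 1 ∨ N t3 = P.a)
    (h12 : t1 ≠ t2) : D t1 (P.kap b) t2 (P.kap b) t3 (P.kap (!b)) ≠ 0 := by
  have hE := P.E_ne b h1 h2 h3 h12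
  have hh := two_zeroK (F := F) (w := w)
  have := mulK_ne P.hw (addK_ne h12) hE
  intro h0
  apply this
  unfold D at h0
  linear_combination h0 + (P.kap (!b) * t3 * t1 * t2) * hh

include P in
theorem D_same {t1 t2 t3 κ : QE F w} (hκ : κ ≠ 0) (h12 : t1 ≠ t2) (h13 : t1 ≠ t3)
    (h23 : t2 ≠ t3) : D t1 κ t2 κ t3 κ ≠ 0 := by
  have hh := two_zeroK (F := F) (w := w)
  have := mulK_ne P.hw hκ (mulK_ne P.hw (addK_ne h12)
    (mulK_ne P.hw (addK_ne h13) (addK_ne h23)))
  intro h0
  apply this
  unfold D at h0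
  linear_combination h0 + (κ * t1 * t2 * t3) * hh

theorem det_ne {p1 p2 p3 : QE F w × Bool}
    (h1 : N p1.1 = 1 ∨ N p1.1 = P.a) (h2 : N p2.1 = 1 ∨ N p2.1 = P.a)
    (h3 : N p3.1 = 1 ∨ N p3.1 = P.a) (h12 : p1 ≠ p2) (h13 : p1 ≠ p3) (h23 : p2 ≠ p3) :
    det3K (hv p1.1 (P.kap p1.2)) (hv p2.1 (P.kap p2.2)) (hv p3.1 (P.kap p3.2)) ≠ 0 := by
  obtain ⟨t1, b1⟩ := p1
  obtain ⟨t2, b2⟩ := p2
  obtain ⟨t3, b3⟩ := p3
  simp only at h1 h2 h3 ⊢
  intro h0
  have i1 := mul_tinv (P.N_ne h1)
  have i2 := mul_tinv (P.N_ne h2)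
  have i3 := mul_tinv (P.N_ne h3)
  have hD : D t1 (P.kap b1) t2 (P.kap b2) t3 (P.kap b3) = 0 := by
    simp only [det3K, hv, Matrix.cons_val_zero, Matrix.cons_val_one, Matrix.cons_val] at h0
    unfold D
    linear_combination (t1 * t2 * t3) * h0
      - (t1 * t1 * t3 * P.kap b3) * i2 - (t1 * t1 * t2 * P.kap b2) * i3
      - (t2 * t2 * t3 * P.kap b3) * i1 - (t2 * t3 * t3 * P.kap b2) * i1
      - (P.kap b1 * t1 * t2 * t2) * i3 - (P.kap b1 * t1 * t3 * t3) * i2
  by_cases hb12 : b1 = b2
  · subst hb12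
    have ht12 : t1 ≠ t2 := fun h => h12 (by rw [h])
    by_cases hb13 : b1 = b3
    · subst hb13
      exact P.D_same (P.kap_ne b1) ht12 (fun h => h13 (by rw [h])) (fun h => h23 (by rw [h])) hD
    · have : b3 = !b1 := by cases b1 <;> cases b3 <;> simp_all
      subst this
      exact P.D_mixed b1 h1 h2 h3 ht12 hD
  · by_cases hb13 : b1 = b3
    · subst hb13
      have : b2 = !b1 := by cases b1 <;> cases b2 <;> simp_all
      subst this
      apply P.D_mixed b1 h1 h3 h2 (fun h => h13 (by rw [h]))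
      rw [← hD]
      unfold D
      ring
    · have e2 : b2 = b3 := by cases b1 <;> cases b2 <;> cases b3 <;> simp_all
      subst e2
      have : b1 = !b2 := by cases b1 <;> cases b2 <;> simp_all
      subst this
      apply P.D_mixed b2 h2 h3 h1 (fun h => h23 (by rw [h]))
      rw [← hD]
      unfold D
      ring

end Params

/-- the basis `1, η` -/
def eb : Fin 2 → QE F w := ![⟨1, 0⟩, ⟨0, 1⟩]

/-- the dual vector of `α` -/
def Wd (c : F) (α : QE F w) : Fin 3 → QE F w := ![α, of c * conj α, 0]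

/-- the repair matrix -/
def Mm (c : F) : Matrix (Fin 2) (Fin 3 × Fin 2) F :=
  fun a p => (Wd (w := w) c (eb a) p.1 * eb p.2).im

/-- the value of the functional at a node -/
noncomputable def zz (c : F) (α t : QE F w) : QE F w := α * t + of c * conj α * tinv t

theorem prod_apply (c : F) (t κ : QE F w) (a b : Fin 2) :
    (Mm (w := w) c * blk (hv t κ)) a b = (zz c (eb a) t * eb b).im := by
  rw [Matrix.mul_apply, Fintype.sum_prod_type, Fin.sum_univ_three]
  simp only [Fin.sum_univ_two, Mm, blk]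
  have key : ∀ (W h : QE F w), (W * eb 0).im * h.rhoFun 0 b + (W * eb 1).im * h.rhoFun 1 b
      = (W * h * eb b).im := by
    intro W h
    fin_cases b
    · simp [eb, QE.rhoFun, mul_im, mul_re]; ring
    · simp [eb, QE.rhoFun, mul_im, mul_re]; ring
  rw [key, key, key]
  simp only [Wd, hv, zz, Matrix.cons_val_zero, Matrix.cons_val_one, Matrix.cons_val, zero_mul,
    zero_im, add_zero]
  rw [← add_im]
  congr 1
  ring

theorem eb_lin (v : Fin 2 → F) (c : F) (t : QE F w) :
    QE.of (v 0) * zz c (eb 0) t + QE.of (v 1) * zz c (eb 1) t = zz c ⟨v 0, v 1⟩ t := by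
  have h : (⟨v 0, v 1⟩ : QE F w) = QE.of (v 0) * eb 0 + QE.of (v 1) * eb 1 := by
    ext <;> simp [eb, add_re, add_im, mul_re, mul_im, of_re, of_im]
  have h' : conj (⟨v 0, v 1⟩ : QE F w)
      = QE.of (v 0) * conj (eb 0) + QE.of (v 1) * conj (eb 1) := by
    ext <;> simp [eb, add_re, add_im, mul_re, mul_im, of_re, of_im, conj_re, conj_im]
  unfold zz
  rw [h', h]
  ring

theorem vecMul_zero (c : F) (t κ : QE F w) (v : Fin 2 → F)
    (h : v ᵥ* (Mm (w := w) c * blk (hv t κ)) = 0) : zz c (⟨v 0, v 1⟩ : QE F w) t = 0 := by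
  rw [← eb_lin]
  have h0 := congrFun h 0
  have h1 := congrFun h 1
  simp only [Matrix.vecMul, dotProduct, Fin.sum_univ_two, prod_apply, Pi.zero_apply] at h0 h1
  simp only [eb, Matrix.cons_val_zero, Matrix.cons_val_one, mul_im] at h0 h1
  ext
  · simp only [eb, add_re, mul_re, of_re, of_im, zero_re, Matrix.cons_val_zero,
      Matrix.cons_val_one]
    linear_combination h1 - h0
  · simp only [eb, add_im, mul_im, of_re, of_im, zero_im, Matrix.cons_val_zero,
      Matrix.cons_val_one]
    linear_combination h0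

theorem zz_ne (hw : ∀ u : F, u * u + u + w ≠ 0) {c : F} {α t : QE F w} (hα : α ≠ 0)
    (ht : N t ≠ 0) (hc : N t ≠ c) : zz c α t ≠ 0 := by
  intro h
  have h2 := two_zeroK (F := F) (w := w)
  have hh := two_zero (F := F)
  have h1 : α * t * t = of c * conj α := by
    unfold zz at h
    linear_combination t * h - (of c * conj α) * (mul_tinv ht) - (of c * conj α) * h2
      + 0 * h2
  have h3 := congrArg N h1
  rw [N_mul, N_mul, N_mul, N_conj, N_of] at h3
  have hN := N_ne_zero hw hα
  have h4 : N t * N t = c * c := by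
    apply mul_left_cancel₀ hN
    linear_combination h3
  apply hc
  have h5 : (N t - c) * (N t - c) = 0 := by
    linear_combination h4 + (c * c - N t * c) * hh
  have h6 := mul_self_eq_zero.1 h5
  linear_combination h6

theorem repair_of (hw : ∀ u : F, u * u + u + w ≠ 0) {c : F} {t κ : QE F w}
    (ht : N t ≠ 0) (hc : N t ≠ c) : IsUnit (Mm (w := w) c * blk (hv t κ)) := by
  rw [Matrix.isUnit_iff_isUnit_det, isUnit_iff_ne_zero]
  intro hdet
  obtain ⟨v, hv0, hv⟩ := Matrix.exists_vecMul_eq_zero_iff.2 hdet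
  have hz := vecMul_zero c t κ v hv
  refine zz_ne hw ?_ ht hc hz
  intro h0
  apply hv0
  have e0 := congrArg QE.re h0
  have e1 := congrArg QE.im h0
  ext i
  fin_cases i
  · exact e0
  · exact e1

theorem nz_le_two {F : Type} [Field F] (A : Matrix (Fin 2) (Fin 2) F) : nz A ≤ 2 := by
  classical
  unfold nz
  exact (Finset.card_le_univ _).trans (by simp)

theorem nz_le_one {c : F} {t κ : QE F w} (ht : N t ≠ 0) (hc : N t = c) :
    nz (Mm (w := w) c * blk (hv t κ)) ≤ 1 := by
  classical
  have hcol : ∀ a, (Mm (w := w) c * blk (hv t κ)) a 0 = 0 := by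
    intro a
    rw [prod_apply]
    have h1 : of c * conj (eb a) * tinv t = conj (eb a) * conj t := by
      unfold tinv
      rw [← hc]
      have : (of (N t) : QE F w) * of (N t)⁻¹ = 1 := by
        ext
        · simp only [mul_re, of_re, of_im, one_re]
          field_simp
          ring
        · simp only [mul_im, of_re, of_im, one_im]
          ring
      linear_combination (conj (eb a) * conj t) * this
    unfold zz
    rw [h1]
    have hh := two_zero (F := F)
    generalize (eb a : QE F w) = α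
    simp only [eb, mul_im, mul_re, add_im, add_re, conj_re, conj_im, Matrix.cons_val_zero]
    linear_combination (α.re * t.im + α.im * t.re
      + 2 * α.im * t.im) * hh
  unfold nz
  refine (Finset.card_le_card (t := {1}) ?_).trans (by simp)
  intro x hx
  simp only [Finset.mem_filter, Finset.mem_univ, true_and] at hx
  obtain ⟨a, ha⟩ := hx
  fin_cases x
  · exact absurd (hcol a) ha
  · simp

end Pool.Agent.MDSR
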