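import Mathlib
import Pool.Agent.MDSR.Code

/-! Repair bandwidth and access of the codes from arcs. -/

namespace Pool.Agent.MDSR

open QE Matrix Finset

variable {F : Type} [Field F] {w : F}

instance [Finite F] : Finite (QE F w) :=
  Finite.of_injective (fun x : QE F w => (x.re, x.im)) (by
    intro x y h
    simp only [Prod.mk.injEq] at h
    exact QE.ext h.1 h.2)

namespace Params

variable [CharP F 2] [Fintype F] (P : Params F w)

/-- the nodes -/
def Node : Type := {p : QE F w × Bool // N p.1 = 1 ∨ N p.1 = P.a}

instance : Finite P.Node := by unfold Node; infer_instance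

/-- the length -/
noncomputable def len : ℕ := Nat.card P.Node

/-- the enumeration of the nodes -/
noncomputable def en : Fin P.len ≃ P.Node := (Finite.equivFin P.Node).symm

/-- the parity-check blocks -/
noncomputable def HH (j : Fin P.len) : Matrix (Fin 3 × Fin 2) (Fin 2) F :=
  blk (hv (P.en j).1.1 (P.kap (P.en j).1.2))

theorem mdsHH : IsMDS P.HH := by
  apply mds_of P.hw (fun j => hv (P.en j).1.1 (P.kap (P.en j).1.2))
  intro a b c hab hac hbc
  apply P.det_ne (P.en a).2 (P.en b).2 (P.en c).2
  · exact fun h => hab (P.en.injective (Subtype.ext h))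
  · exact fun h => hac (P.en.injective (Subtype.ext h))
  · exact fun h => hbc (P.en.injective (Subtype.ext h))

omit [Fintype F] in
theorem exists_scale [Finite F] (hw : ∀ u : F, u * u + u + w ≠ 0) (c : F) {β : QE F w}
    (hβ : β ≠ 0) : ∃ r : F, r * r * N β = c := by
  have hN := N_ne_zero hw hβ
  have hs : IsSquare (c / N β) := FiniteField.isSquare_of_char_two (ringChar.eq F 2) _
  obtain ⟨r, hr⟩ := hs
  refine ⟨r, ?_⟩
  rw [← hr]
  field_simp

/-- representatives of the projective line -/
def bet : Option F → QE F w
  | none => 1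
  | some s => ⟨s, 1⟩

omit [CharP F 2] [Fintype F] in
theorem bet_ne (o : Option F) : (bet o : QE F w) ≠ 0 := by
  cases o with
  | none =>
    intro h
    exact one_ne_zero (congrArg QE.re h)
  | some s =>
    intro h
    exact one_ne_zero (congrArg QE.im h)

include P in
theorem exists_points {c : F} (hc : c ≠ 0) :
    ∃ t : Option F → QE F w, Function.Injective t ∧ ∀ o, N (t o) = c := by
  choose r hr using fun o => exists_scale P.hw c (bet_ne (w := w) o)
  have hr0 : ∀ o, r o ≠ 0 := by
    intro o h0
    have := hr o
    rw [h0] at this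
    apply hc
    rw [← this]
    ring
  refine ⟨fun o => QE.of (r o) * bet o, ?_, ?_⟩
  · intro o o' h
    have hre := congrArg QE.re h
    have him := congrArg QE.im h
    cases o with
    | none =>
      cases o' with
      | none => rfl
      | some s =>
        simp only [bet, mul_im, of_re, of_im, one_re, one_im] at him
        exfalso
        apply hr0 (some s)
        linear_combination -him
    | some s =>
      cases o' with
      | none =>
        simp only [bet, mul_im, of_re, of_im, one_re, one_im] at him
        exfalso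
        apply hr0 (some s)
        linear_combination him
      | some s' =>
        simp only [bet, mul_im, of_re, of_im] at him
        simp only [bet, mul_re, of_re, of_im] at hre
        have e : r (some s) = r (some s') := by linear_combination him
        rw [e] at hre
        have e2 : s = s' := by
          apply mul_left_cancel₀ (hr0 (some s'))
          linear_combination hre
        rw [e2]
  · intro o
    rw [N_mul, N_of]
    exact hr o

theorem card_J [DecidableEq F] {c : F} (hc : c = 1 ∨ c = P.a) :
    2 * (Fintype.card F + 1) ≤ (univ.filter fun j : Fin P.len => N (P.en j).1.1 = c).card := by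
  classical
  have hc0 : c ≠ 0 := by
    rcases hc with rfl | rfl
    · exact one_ne_zero
    · exact P.a_ne
  obtain ⟨t, ht, htN⟩ := P.exists_points hc0
  have h1 : ∀ o, N (t o) = 1 ∨ N (t o) = P.a := by
    intro o; rw [htN]; exact hc
  have h2 : (univ : Finset (Option F × Bool)).card ≤
      (univ.filter fun j : Fin P.len => N (P.en j).1.1 = c).card := by
    apply Finset.card_le_card_of_injOn
      (fun p => P.en.symm ⟨(t p.1, p.2), h1 p.1⟩)
    · intro p _
      simp only [Finset.coe_filter, Finset.mem_univ, true_and, Set.mem_setOf_eq,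
        Equiv.apply_symm_apply]
      exact htN p.1
    · intro p _ p' _ h
      have h3 := P.en.symm.injective h
      have h4 := congrArg Subtype.val h3
      simp only [Prod.mk.injEq] at h4
      exact Prod.ext (ht h4.1) h4.2
  rw [Finset.card_univ, Fintype.card_prod, Fintype.card_option, Fintype.card_bool] at h2
  omega

/-- the other norm -/
noncomputable def oth (i : Fin P.len) : F := by
  classical exact if N (P.en i).1.1 = 1 then P.a else 1

theorem oth_mem (i : Fin P.len) : P.oth i = 1 ∨ P.oth i = P.a := by
  classical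
  unfold oth
  split_ifs
  · right; rfl
  · left; rfl

theorem oth_ne (i : Fin P.len) : N (P.en i).1.1 ≠ P.oth i := by
  classical
  unfold oth
  split_ifs with h
  · rw [h]; exact P.a_ne_one.symm
  · exact h

theorem rep (i : Fin P.len) : IsRepair P.HH i (Mm (w := w) (P.oth i)) :=
  repair_of P.hw (P.N_ne (P.en i).2) (P.oth_ne i)

theorem io_le (i : Fin P.len) :
    IOc P.HH i (Mm (w := w) (P.oth i)) + 2 * (Fintype.card F + 1) ≤ 2 * (P.len - 1) := by
  classical
  have hJ := P.card_J (P.oth_mem i)
  refine (Nat.add_le_add_left hJ _).trans ?_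
  unfold IOc
  have h1 : ∀ j ∈ univ.erase i, nz (Mm (w := w) (P.oth i) * P.HH j) ≤
      if N (P.en j).1.1 = P.oth i then 1 else 2 := by
    intro j _
    split_ifs with h
    · exact nz_le_one (P.N_ne (P.en j).2) h
    · exact nz_le_two _
  refine (Nat.add_le_add_right (Finset.sum_le_sum h1) _).trans ?_
  have h2 : (univ.filter fun j : Fin P.len => N (P.en j).1.1 = P.oth i).card =
      ∑ j ∈ univ.erase i, if N (P.en j).1.1 = P.oth i then 1 else 0 := by
    rw [← Finset.card_filter]
    congr 1
    ext j
    simp only [Finset.mem_filter, Finset.mem_univ, true_and, Finset.mem_erase, ne_eq, and_true]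
    constructor
    · intro h
      refine ⟨?_, h⟩
      rintro rfl
      exact P.oth_ne j h
    · exact fun h => h.2
  rw [h2, ← Finset.sum_add_distrib]
  rw [Finset.sum_congr rfl (g := fun _ => 2)]
  · rw [Finset.sum_const, Finset.card_erase_of_mem (Finset.mem_univ _), Finset.card_univ,
      Fintype.card_fin, smul_eq_mul, mul_comm]
  · intro j _
    split_ifs <;> rfl

theorem bw_ge (i : Fin P.len) (M : Matrix (Fin 2) (Fin 3 × Fin 2) F)
    (hM : IsRepair P.HH i M) : 2 * (P.len - 1) ≤ BW P.HH i M + 2 * (Fintype.card F + 1) := by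
  classical
  have h := deficiency_le (by norm_num) P.HH P.mdsHH i M hM
  have hq : 1 < Fintype.card F := Fintype.one_lt_card
  obtain ⟨p, hp⟩ : ∃ p, Fintype.card F = p + 2 := ⟨Fintype.card F - 2, by omega⟩
  have h2 : (∑ j ∈ univ.erase i, (2 - (M * P.HH j).rank)) ≤ 2 * (Fintype.card F + 1) := by
    rw [hp] at h ⊢
    have e1 : p + 2 - 1 = p + 1 := rfl
    have e2 : (p + 2) ^ 2 - 1 = (p + 3) * (p + 1) := by
      have : (p + 2) ^ 2 = (p + 3) * (p + 1) + 1 := by ring
      omega
    rw [e1, e2] at h
    have h3 : (3 - 1) * ((p + 3) * (p + 1)) = (2 * (p + 3)) * (p + 1) := by ring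
    rw [h3] at h
    have h4 := Nat.le_of_mul_le_mul_right h (Nat.succ_pos p)
    omega
  have h3 : (∑ j ∈ univ.erase i, (2 - (M * P.HH j).rank)) +
      (∑ j ∈ univ.erase i, (M * P.HH j).rank) = 2 * (P.len - 1) := by
    rw [← Finset.sum_add_distrib]
    rw [Finset.sum_congr rfl (g := fun _ => 2)]
    · rw [Finset.sum_const, Finset.card_erase_of_mem (Finset.mem_univ _), Finset.card_univ,
        Fintype.card_fin, smul_eq_mul, mul_comm]
    · intro j _
      have := (M * P.HH j).rank_le_width
      omega
  unfold BW
  omega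

/-- the common value -/
theorem val_BW (i : Fin P.len) : BW P.HH i (Mm (w := w) (P.oth i))
    = 2 * (P.len - 1) - 2 * (Fintype.card F + 1) := by
  have h1 := P.io_le i
  have h2 := P.bw_ge i _ (P.rep i)
  have h3 := BW_le_IO P.HH i (Mm (w := w) (P.oth i))
  omega

theorem val_IO (i : Fin P.len) : IOc P.HH i (Mm (w := w) (P.oth i))
    = 2 * (P.len - 1) - 2 * (Fintype.card F + 1) := by
  have h1 := P.io_le i
  have h2 := P.bw_ge i _ (P.rep i)
  have h3 := BW_le_IO P.HH i (Mm (w := w) (P.oth i))
  omega

theorem beta_eq (i : Fin P.len) :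
    beta P.HH i = 2 * (P.len - 1) - 2 * (Fintype.card F + 1) := by
  apply le_antisymm
  · exact Nat.sInf_le ⟨_, P.rep i, P.val_BW i⟩
  · obtain ⟨M, hM, hb⟩ := Nat.sInf_mem
      (⟨_, _, P.rep i, P.val_BW i⟩ : {b | ∃ M, IsRepair P.HH i M ∧ BW P.HH i M = b}.Nonempty)
    unfold beta
    rw [← hb]
    have := P.bw_ge i M hM
    omega

theorem gamma_eq (i : Fin P.len) :
    gamma P.HH i = 2 * (P.len - 1) - 2 * (Fintype.card F + 1) := by
  apply le_antisymm
  · exact Nat.sInf_le ⟨_, P.rep i, P.val_IO i⟩
  · obtain ⟨M, hM, hb⟩ := Nat.sInf_mem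
      (⟨_, _, P.rep i, P.val_IO i⟩ : {b | ∃ M, IsRepair P.HH i M ∧ IOc P.HH i M = b}.Nonempty)
    unfold gamma
    rw [← hb]
    have h1 := P.bw_ge i M hM
    have h2 := BW_le_IO P.HH i M
    omega

theorem len_ge : 4 * (Fintype.card F + 1) ≤ P.len := by
  classical
  have h1 := P.card_J (Or.inl rfl)
  have h2 := P.card_J (Or.inr rfl)
  have h3 : Disjoint (univ.filter fun j : Fin P.len => N (P.en j).1.1 = 1)
      (univ.filter fun j : Fin P.len => N (P.en j).1.1 = P.a) := by
    rw [Finset.disjoint_filter]
    intro j _ h h'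
    exact P.a_ne_one (h'.symm.trans h)
  have h4 := Finset.card_union_of_disjoint h3
  have h5 := Finset.card_le_univ ((univ.filter fun j : Fin P.len => N (P.en j).1.1 = 1) ∪
      (univ.filter fun j : Fin P.len => N (P.en j).1.1 = P.a))
  rw [Fintype.card_fin] at h5
  omega

end Params

end Pool.Agent.MDSR
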