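import Mathlib
import Pool.Agent.MDSR.Count

/-! Existence of the parameters over every field of characteristic two with at least sixteen
elements. -/

namespace Pool.Agent.MDSR

open Finset

variable {F : Type} [Field F] [CharP F 2]

/-- the additive map `y ↦ y * y + b * y` -/
def fb (b : F) : F →+ F where
  toFun y := y * y + b * y
  map_zero' := by ring
  map_add' := by
    intro x y
    have h2 : (2 : F) = 0 := CharTwo.two_eq_zero
    linear_combination (x * y) * h2

theorem fb_index [Finite F] (b : F) : (fb b).range.index ≤ 2 := by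
  have h1 : Nat.card (fb b).range * (fb b).range.index = Nat.card F :=
    AddSubgroup.card_mul_index _
  have h2 : (fb b).ker.index = Nat.card (fb b).range := AddSubgroup.index_ker _
  have h3 : Nat.card (fb b).ker * (fb b).ker.index = Nat.card F := AddSubgroup.card_mul_index _
  rw [h2, mul_comm, ← h1] at h3
  have h4 : 0 < Nat.card (fb b).range := Nat.card_pos
  have h5 : Nat.card (fb b).ker = (fb b).range.index := Nat.eq_of_mul_eq_mul_left h4 h3
  rw [← h5]
  have hsub : ((fb b).ker : Set F) ⊆ {0, b} := by
    intro x hx
    have h2' : (2 : F) = 0 := CharTwo.two_eq_zero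
    have hx' : x * x + b * x = 0 := hx
    have hx2 : x * (x - b) = 0 := by linear_combination hx' - (b * x) * h2'
    rcases mul_eq_zero.1 hx2 with h | h
    · left; exact h
    · right; exact sub_eq_zero.1 h
  have h6 : ((fb b).ker : Set F).ncard ≤ 2 :=
    (Set.ncard_le_ncard hsub (Set.toFinite _)).trans
      ((Set.ncard_insert_le _ _).trans (by rw [Set.ncard_singleton]))
  rwa [← Nat.card_coe_set_eq] at h6

theorem dich [Finite F] (b : F) {u v : F} (hu : u ∉ (fb b).range) (hv : v ∉ (fb b).range) :
    u + v ∈ (fb b).range := by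
  have h := fb_index b
  have h0 : (fb b).range.index ≠ 0 := AddSubgroup.index_ne_zero_of_finite
  have h1 : (fb b).range.index ≠ 1 := by
    intro h1
    rw [AddSubgroup.index_eq_one] at h1
    apply hu
    rw [h1]
    exact AddSubgroup.mem_top u
  have h2 : (fb b).range.index = 2 := by omega
  rw [AddSubgroup.add_mem_iff_of_index_two h2]
  exact iff_of_false hu hv

theorem same_add [Finite F] (b : F) {u v : F} (h : u ∈ (fb b).range ↔ v ∈ (fb b).range) :
    u + v ∈ (fb b).range := by
  by_cases hu : u ∈ (fb b).range
  · exact AddSubgroup.add_mem _ hu (h.1 hu)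
  · exact dich b hu fun hv => hu (h.2 hv)

/-- the nonsplit constant -/
theorem exists_w [Fintype F] (hF : 16 ≤ Fintype.card F) :
    ∃ w : F, (∀ u : F, u * u + u + w ≠ 0) ∧ w ≠ 1 := by
  classical
  have h2 : (2 : F) = 0 := CharTwo.two_eq_zero
  -- the map is not injective, so not surjective
  have hns : ¬ Function.Surjective (fun u : F => u * u + u) := by
    intro hs
    have hi := Finite.injective_iff_surjective.2 hs
    have : (0 : F) = 1 := hi (by
      change (0 : F) * 0 + 0 = 1 * 1 + 1
      linear_combination -h2)
    exact zero_ne_one this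
  obtain ⟨w0, hw0⟩ : ∃ w0, ∀ u : F, u * u + u ≠ w0 := by
    by_contra hcon
    push Not at hcon
    exact hns hcon
  by_cases h1 : w0 = 1
  · -- choose `v` outside `{0, 1}`
    obtain ⟨v, hv⟩ : ∃ v : F, v ∉ ({0, 1} : Finset F) := by
      by_contra hcon
      push Not at hcon
      have : (univ : Finset F) ⊆ {0, 1} := fun x _ => hcon x
      have h3 := Finset.card_le_card this
      have h4 : ({0, 1} : Finset F).card ≤ 2 := Finset.card_le_two
      rw [Finset.card_univ] at h3
      omega
    simp only [Finset.mem_insert, Finset.mem_singleton, not_or] at hv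
    refine ⟨w0 + (v * v + v), ?_, ?_⟩
    · intro u hu
      apply hw0 (u + v)
      linear_combination hu + (u * v - w0) * h2
    · intro h
      rw [h1] at h
      have h3 : v * (v + 1) = 0 := by linear_combination h
      rcases mul_eq_zero.1 h3 with h4 | h4
      · exact hv.1 h4
      · apply hv.2
        linear_combination h4 - h2
  · refine ⟨w0, ?_, h1⟩
    intro u hu
    apply hw0 u
    linear_combination hu - w0 * h2

theorem exists_params [Fintype F] (hF : 16 ≤ Fintype.card F) :
    ∃ w : F, Nonempty (Params F w) := by
  classical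
  have h2 : (2 : F) = 0 := CharTwo.two_eq_zero
  obtain ⟨w, hw, hw1⟩ := exists_w hF
  refine ⟨w, ?_⟩
  have hw0 : w ≠ 0 := by
    intro h
    apply hw 0
    rw [h]; ring
  obtain ⟨m, hm⟩ : ∃ m : F, m * m = w⁻¹ := by
    obtain ⟨r, hr⟩ := FiniteField.isSquare_of_char_two (ringChar.eq F 2) (w⁻¹)
    exact ⟨r, hr.symm⟩
  have hwm : w * (m * m) = 1 := by rw [hm]; field_simp
  have hm0 : m ≠ 0 := by
    intro h
    rw [h] at hwm
    simp at hwm
  have hm1 : 1 + m ≠ 0 := by
    intro h
    apply hw1
    have : m = 1 := by linear_combination h - h2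
    rw [this] at hwm
    linear_combination hwm
  -- pigeonhole
  let f : F → Bool × Bool := fun k =>
    (decide (m * k ∈ (fb (1 + m)).range), decide ((k * k + k) / m ∈ (fb (1 : F)).range))
  obtain ⟨y, _, hy⟩ := Finset.exists_lt_card_fiber_of_mul_lt_card_of_maps_to
    (s := (univ : Finset F)) (t := (univ : Finset (Bool × Bool))) (f := f) (n := 2)
    (fun _ _ => Finset.mem_univ _) (by
      rw [Finset.card_univ, Finset.card_univ]
      simp only [Fintype.card_prod, Fintype.card_bool]
      omega)
  obtain ⟨k0, hk0, k1, hk1, k2, hk2, h01, h02, h12⟩ := Finset.two_lt_card.1 hy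
  have good : ∀ u v : F, u ∈ (univ.filter fun x => f x = y) →
      v ∈ (univ.filter fun x => f x = y) → u ≠ v → u + v ≠ 1 → Nonempty (Params F w) := by
    intro u v hu hv huv huv1
    have hfu := (Finset.mem_filter.1 hu).2
    have hfv := (Finset.mem_filter.1 hv).2
    have hf : f u = f v := hfu.trans hfv.symm
    simp only [f, Prod.mk.injEq, decide_eq_decide] at hf
    have hA := same_add _ hf.1
    have hB := same_add _ hf.2
    obtain ⟨y', hy'⟩ := hA
    obtain ⟨z', hz'⟩ := hB
    have hy2 : y' * y' + (1 + m) * y' = m * u + m * v := hy'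
    have hz2 : z' * z' + 1 * z' = (u * u + u) / m + (v * v + v) / m := hz'
    have huv0 : u + v ≠ 0 := by
      intro h
      apply huv
      linear_combination h - v * h2
    exact ⟨{
      hw := hw
      m := m
      k := u + v
      a := 1 + (u + v)⁻¹
      y := y'
      z := z'
      hm := hwm
      hm1 := hm1
      hk := by
        field_simp
        linear_combination (u + v) * h2
      hk1 := huv1
      hy := by rw [hy2]; ring
      hz := by
        have : m * (z' * z' + z') = m * (z' * z' + 1 * z') := by ring
        rw [this, hz2]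
        field_simp
        linear_combination (-(u * v)) * h2 }⟩
  by_cases h1 : k0 + k1 = 1
  · apply good k0 k2 hk0 hk2 h02
    intro h
    apply h12
    linear_combination h1 - h
  · exact good k0 k1 hk0 hk1 h01 h1

end Pool.Agent.MDSR
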