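import Mathlib

/-! Concrete models of the fields with 4 and 16 elements, for kernel computation. -/

namespace Pool.Agent.MDSR

/-- the field with four elements: `o = 0`, `i = 1`, `w`, `v = w + 1 = w * w` -/
inductive F4 : Type
  | o | i | w | v
  deriving DecidableEq

namespace F4

instance : Fintype F4 := ⟨{o, i, w, v}, by intro x; cases x <;> decide⟩

def add : F4 → F4 → F4
  | o, x => x
  | i, o => i | i, i => o | i, w => v | i, v => w
  | w, o => w | w, i => v | w, w => o | w, v => i
  | v, o => v | v, i => w | v, w => i | v, v => o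

def mul : F4 → F4 → F4
  | o, _ => o
  | i, x => x
  | w, o => o | w, i => w | w, w => v | w, v => i
  | v, o => o | v, i => v | v, w => i | v, v => w

def inv : F4 → F4
  | o => o | i => i | w => v | v => w

instance : Zero F4 := ⟨o⟩
instance : One F4 := ⟨i⟩
instance : Add F4 := ⟨add⟩
instance : Mul F4 := ⟨mul⟩
instance : Neg F4 := ⟨id⟩
instance : Inv F4 := ⟨inv⟩

instance : CommRing F4 where
  add_assoc := by decide
  zero_add := by decide
  add_zero := by decide
  add_comm := by decide
  neg_add_cancel := by decide
  mul_assoc := by decide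
  one_mul := by decide
  mul_one := by decide
  mul_comm := by decide
  left_distrib := by decide
  right_distrib := by decide
  zero_mul := by decide
  mul_zero := by decide
  nsmul := nsmulRec
  zsmul := zsmulRec

instance : Field F4 where
  exists_pair_ne := ⟨o, i, by decide⟩
  mul_inv_cancel := by decide
  inv_zero := by decide
  nnqsmul := _
  nnqsmul_def := fun _ _ => rfl
  qsmul := _
  qsmul_def := fun _ _ => rfl

theorem card_eq : Fintype.card F4 = 4 := by decide

end F4

/-- the field with sixteen elements: `re + im * η`, `η * η = η + w` -/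
@[ext] structure F16 : Type where
  re : F4
  im : F4
  deriving DecidableEq

namespace F16

instance : Zero F16 := ⟨⟨0, 0⟩⟩
instance : One F16 := ⟨⟨1, 0⟩⟩
instance : Add F16 := ⟨fun x y => ⟨x.re + y.re, x.im + y.im⟩⟩
instance : Neg F16 := ⟨fun x => ⟨-x.re, -x.im⟩⟩
instance : Mul F16 := ⟨fun x y =>
  ⟨x.re * y.re + F4.w * (x.im * y.im), x.re * y.im + x.im * y.re + x.im * y.im⟩⟩

theorem zero_re : (0 : F16).re = 0 := rfl
theorem zero_im : (0 : F16).im = 0 := rfl
theorem one_re : (1 : F16).re = 1 := rfl
theorem one_im : (1 : F16).im = 0 := rfl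
theorem add_re (x y : F16) : (x + y).re = x.re + y.re := rfl
theorem add_im (x y : F16) : (x + y).im = x.im + y.im := rfl
theorem neg_re (x : F16) : (-x).re = -x.re := rfl
theorem neg_im (x : F16) : (-x).im = -x.im := rfl
theorem mul_re (x y : F16) : (x * y).re = x.re * y.re + F4.w * (x.im * y.im) := rfl
theorem mul_im (x y : F16) : (x * y).im = x.re * y.im + x.im * y.re + x.im * y.im := rfl

instance : CommRing F16 where
  add_assoc := by intro a b c; ext <;> simp only [add_re, add_im] <;> ring
  zero_add := by intro a; ext <;> simp only [add_re, add_im, zero_re, zero_im] <;> ring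
  add_zero := by intro a; ext <;> simp only [add_re, add_im, zero_re, zero_im] <;> ring
  add_comm := by intro a b; ext <;> simp only [add_re, add_im] <;> ring
  neg_add_cancel := by
    intro a; ext <;> simp only [add_re, add_im, neg_re, neg_im, zero_re, zero_im] <;> ring
  mul_assoc := by
    intro a b c; ext <;> simp only [mul_re, mul_im] <;> ring
  one_mul := by
    intro a; ext <;> simp only [mul_re, mul_im, one_re, one_im] <;> ring
  mul_one := by
    intro a; ext <;> simp only [mul_re, mul_im, one_re, one_im] <;> ring
  mul_comm := by intro a b; ext <;> simp only [mul_re, mul_im] <;> ring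
  left_distrib := by
    intro a b c; ext <;> simp only [mul_re, mul_im, add_re, add_im] <;> ring
  right_distrib := by
    intro a b c; ext <;> simp only [mul_re, mul_im, add_re, add_im] <;> ring
  zero_mul := by
    intro a; ext <;> simp only [mul_re, mul_im, zero_re, zero_im] <;> ring
  mul_zero := by
    intro a; ext <;> simp only [mul_re, mul_im, zero_re, zero_im] <;> ring
  nsmul := nsmulRec
  zsmul := zsmulRec

/-- multiplication by `x` in the basis `1, η` -/
def rhoFun (x : F16) : Matrix (Fin 2) (Fin 2) F4 :=
  !![x.re, F4.w * x.im; x.im, x.re + x.im]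

/-- the regular representation over the four-element field -/
def rho : F16 →+* Matrix (Fin 2) (Fin 2) F4 where
  toFun := rhoFun
  map_one' := by
    ext a b; fin_cases a <;> fin_cases b <;> decide
  map_zero' := by
    ext a b; fin_cases a <;> fin_cases b <;> decide
  map_add' := by
    intro x y
    ext a b; fin_cases a <;> fin_cases b <;> simp [rhoFun, add_re, add_im] <;> ring
  map_mul' := by
    intro x y
    ext a b
    fin_cases a <;> fin_cases b <;>
      simp [rhoFun, mul_re, mul_im, Matrix.mul_apply, Fin.sum_univ_two] <;> ring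

/-- the candidate inverse -/
def cinv (x : F16) : F16 :=
  let N := x.re * x.re + x.re * x.im + F4.w * (x.im * x.im)
  ⟨N⁻¹ * (x.re + x.im), N⁻¹ * x.im⟩

theorem mul_cinv (x : F16) (hx : x ≠ 0) : x * cinv x = 1 := by
  rcases x with ⟨a, b⟩
  revert hx
  revert a b
  decide

theorem isUnit_of_ne {x : F16} (hx : x ≠ 0) : IsUnit x :=
  IsUnit.of_mul_eq_one _ (mul_cinv x hx)

end F16

end Pool.Agent.MDSR
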