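import Mathlib
import Pool.Agent.MDSR.Fields
import Pool.Agent.MDSR.Defs

/-! A code over the four-element field from an irregular hyperoval of the plane of order 16. -/

namespace Pool.Agent.MDSR

open Matrix Finset

/-- The eighteen points of the hyperoval (suitably scaled). -/
def hp : Fin 18 → Fin 3 → F16 := ![
  ![⟨.i, .o⟩, ⟨.o, .o⟩, ⟨.o, .o⟩],
  ![⟨.i, .o⟩, ⟨.i, .o⟩, ⟨.i, .o⟩],
  ![⟨.i, .o⟩, ⟨.o, .i⟩, ⟨.v, .i⟩],
  ![⟨.i, .o⟩, ⟨.i, .i⟩, ⟨.w, .i⟩],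
  ![⟨.i, .o⟩, ⟨.w, .i⟩, ⟨.w, .o⟩],
  ![⟨.w, .v⟩, ⟨.o, .v⟩, ⟨.i, .w⟩],
  ![⟨.w, .i⟩, ⟨.v, .w⟩, ⟨.w, .v⟩],
  ![⟨.i, .o⟩, ⟨.v, .o⟩, ⟨.i, .i⟩],
  ![⟨.o, .i⟩, ⟨.i, .i⟩, ⟨.v, .i⟩],
  ![⟨.w, .i⟩, ⟨.o, .i⟩, ⟨.o, .v⟩],
  ![⟨.w, .v⟩, ⟨.i, .v⟩, ⟨.w, .w⟩],
  ![⟨.w, .v⟩, ⟨.v, .o⟩, ⟨.o, .i⟩],
  ![⟨.w, .v⟩, ⟨.w, .w⟩, ⟨.w, .i⟩],
  ![⟨.w, .i⟩, ⟨.i, .o⟩, ⟨.w, .o⟩],
  ![⟨.w, .i⟩, ⟨.i, .w⟩, ⟨.v, .v⟩],
  ![⟨.w, .i⟩, ⟨.v, .v⟩, ⟨.i, .w⟩],
  ![⟨.o, .o⟩, ⟨.w, .i⟩, ⟨.o, .o⟩],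
  ![⟨.o, .o⟩, ⟨.o, .o⟩, ⟨.i, .o⟩]]

/-- a three by three determinant -/
def det3 (x y z : Fin 3 → F16) : F16 :=
  x 0 * (y 1 * z 2 + y 2 * z 1) + x 1 * (y 0 * z 2 + y 2 * z 0) + x 2 * (y 0 * z 1 + y 1 * z 0)

set_option maxRecDepth 100000 in
theorem det3_ne : ∀ a b c : Fin 18, a ≠ b → a ≠ c → b ≠ c → det3 (hp a) (hp b) (hp c) ≠ 0 := by
  decide +kernel

/-- the parity-check blocks -/
def Hc : Fin 18 → Matrix (Fin 3 × Fin 2) (Fin 2) F4 :=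
  fun j p b => F16.rhoFun (hp j p.1) p.2 b

theorem sub_eq_add4 : ∀ a b : F4, a - b = a + b := by decide

theorem sub_eq_add16 (a b : F16) : a - b = a + b := by
  have h : -b = b := by
    ext
    · rfl
    · rfl
  rw [sub_eq_add_neg, h]

theorem det_eq (A : Matrix (Fin 3) (Fin 3) F16) :
    A.det = det3 (fun k => A k 0) (fun k => A k 1) (fun k => A k 2) := by
  rw [Matrix.det_fin_three]
  simp only [sub_eq_add16, det3]
  ring

/-- passing to blocks -/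
noncomputable def toBlocks : Matrix (Fin 3) (Fin 3) F16 →+* Matrix (Fin 3 × Fin 2) (Fin 3 × Fin 2) F4 :=
  (Matrix.compRingEquiv (Fin 3) (Fin 2) F4).toRingHom.comp F16.rho.mapMatrix

theorem mds : IsMDS Hc := by
  intro I hI
  have h : blockOf Hc I = toBlocks (fun k c => hp (I c) k) := by
    ext ⟨k, a⟩ ⟨c, b⟩
    rfl
  rw [h]
  apply IsUnit.map
  rw [Matrix.isUnit_iff_isUnit_det]
  apply F16.isUnit_of_ne
  rw [det_eq]
  apply det3_ne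
  · exact fun h => absurd (hI h) (by decide)
  · exact fun h => absurd (hI h) (by decide)
  · exact fun h => absurd (hI h) (by decide)

/-- which repair matrix is used -/
def kind : Fin 18 → Fin 3 := ![0, 1, 0, 2, 1, 1, 0, 0, 0, 0, 1, 0, 1, 1, 2, 0, 2, 2]

/-- the entries of the three repair matrices -/
def Mt : Fin 3 → Fin 2 → Fin 3 → Fin 2 → F4 := ![
  ![![![.i, .o], ![.i, .v], ![.o, .v]], ![![.i, .w], ![.i, .v], ![.o, .o]]],
  ![![![.o, .o], ![.w, .i], ![.w, .o]], ![![.o, .v], ![.w, .i], ![.o, .o]]],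
  ![![![.o, .o], ![.w, .w], ![.w, .i]], ![![.w, .o], ![.o, .w], ![.w, .v]]]]

/-- the repair matrix for the node `i` -/
def Mc (i : Fin 18) : Matrix (Fin 2) (Fin 3 × Fin 2) F4 :=
  fun a p => Mt (kind i) a p.1 p.2

/-- the product `M_i H_j` -/
def pr (i j : Fin 18) (a b : Fin 2) : F4 :=
  (Mt (kind i) a 0 0 * F16.rhoFun (hp j 0) 0 b + Mt (kind i) a 0 1 * F16.rhoFun (hp j 0) 1 b) +
  (Mt (kind i) a 1 0 * F16.rhoFun (hp j 1) 0 b + Mt (kind i) a 1 1 * F16.rhoFun (hp j 1) 1 b) +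
  (Mt (kind i) a 2 0 * F16.rhoFun (hp j 2) 0 b + Mt (kind i) a 2 1 * F16.rhoFun (hp j 2) 1 b)

theorem mul_eq_pr (i j : Fin 18) : Mc i * Hc j = fun a b => pr i j a b := by
  ext a b
  rw [Matrix.mul_apply, Fintype.sum_prod_type, Fin.sum_univ_three]
  simp only [Fin.sum_univ_two]
  rfl

theorem rep_det : ∀ i : Fin 18, pr i i 0 0 * pr i i 1 1 + pr i i 0 1 * pr i i 1 0 ≠ 0 := by
  decide +kernel

theorem rep (i : Fin 18) : IsRepair Hc i (Mc i) := by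
  unfold IsRepair
  rw [mul_eq_pr, Matrix.isUnit_iff_isUnit_det, Matrix.det_fin_two, isUnit_iff_ne_zero,
    sub_eq_add4]
  exact rep_det i

/-- computable count of nonzero columns -/
def nzc (i j : Fin 18) : ℕ :=
  (if pr i j 0 0 = 0 ∧ pr i j 1 0 = 0 then 0 else 1) +
  (if pr i j 0 1 = 0 ∧ pr i j 1 1 = 0 then 0 else 1)

theorem nz_eq (i j : Fin 18) : nz (Mc i * Hc j) = nzc i j := by
  classical
  rw [mul_eq_pr]
  unfold nz
  rw [Finset.card_filter, Fin.sum_univ_two]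
  unfold nzc
  congr 1
  · by_cases h : pr i j 0 0 = 0 ∧ pr i j 1 0 = 0
    · rw [if_pos h, if_neg]
      rintro ⟨a, ha⟩
      fin_cases a
      · exact ha h.1
      · exact ha h.2
    · rw [if_neg h, if_pos]
      by_contra hc
      apply h
      constructor
      · by_contra h0; exact hc ⟨0, h0⟩
      · by_contra h0; exact hc ⟨1, h0⟩
  · by_cases h : pr i j 0 1 = 0 ∧ pr i j 1 1 = 0
    · rw [if_pos h, if_neg]
      rintro ⟨a, ha⟩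
      fin_cases a
      · exact ha h.1
      · exact ha h.2
    · rw [if_neg h, if_pos]
      by_contra hc
      apply h
      constructor
      · by_contra h0; exact hc ⟨0, h0⟩
      · by_contra h0; exact hc ⟨1, h0⟩

theorem nz_sum : ∀ i : Fin 18, (∑ j ∈ univ.erase i, nzc i j) = 24 := by
  decide +kernel

theorem io_eq (i : Fin 18) : IOc Hc i (Mc i) = 24 := by
  unfold IOc
  rw [← nz_sum i]
  exact Finset.sum_congr rfl fun j _ => nz_eq i j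

theorem bw_ge (i : Fin 18) (M : Matrix (Fin 2) (Fin 3 × Fin 2) F4) (hM : IsRepair Hc i M) :
    24 ≤ BW Hc i M := by
  have h := deficiency_le (by norm_num) Hc mds i M hM
  rw [F4.card_eq] at h
  have h2 : (∑ j ∈ univ.erase i, (2 - (M * Hc j).rank)) ≤ 10 := by omega
  have h3 : (∑ j ∈ univ.erase i, (2 - (M * Hc j).rank)) +
      (∑ j ∈ univ.erase i, (M * Hc j).rank) = 34 := by
    rw [← Finset.sum_add_distrib]
    rw [Finset.sum_congr rfl (g := fun _ => 2)]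
    · rw [Finset.sum_const, Finset.card_erase_of_mem (Finset.mem_univ _)]
      simp
    · intro j _
      have := (M * Hc j).rank_le_width
      omega
  unfold BW
  omega

theorem beta_eq (i : Fin 18) : beta Hc i = 24 := by
  have h1 : BW Hc i (Mc i) = 24 :=
    le_antisymm ((BW_le_IO Hc i (Mc i)).trans (io_eq i).le) (bw_ge i _ (rep i))
  apply le_antisymm
  · exact Nat.sInf_le ⟨Mc i, rep i, h1⟩
  · obtain ⟨M, hM, hb⟩ := Nat.sInf_mem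
      (⟨24, Mc i, rep i, h1⟩ : {b | ∃ M, IsRepair Hc i M ∧ BW Hc i M = b}.Nonempty)
    unfold beta
    rw [← hb]
    exact bw_ge i M hM

theorem gamma_eq (i : Fin 18) : gamma Hc i = 24 := by
  apply le_antisymm
  · exact Nat.sInf_le ⟨Mc i, rep i, io_eq i⟩
  · obtain ⟨M, hM, hb⟩ := Nat.sInf_mem
      (⟨24, Mc i, rep i, io_eq i⟩ : {b | ∃ M, IsRepair Hc i M ∧ IOc Hc i M = b}.Nonempty)
    unfold gamma
    rw [← hb]
    exact (bw_ge i M hM).trans (BW_le_IO Hc i M)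

end Pool.Agent.MDSR
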