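import Mathlib
import Pool.Agent.MDSR.Defs

/-! A code over the eight-element field from the Subiaco hyperoval of the plane of order 64. -/

namespace Pool.Agent.MDSR

open Matrix Finset

/-- the field with eight elements: `a0 = 0` and `a(i+1)` is the `i`-th power of a generator -/
inductive F8 : Type
  | a0 | a1 | a2 | a3 | a4 | a5 | a6 | a7
  deriving DecidableEq

namespace F8

instance : Fintype F8 := ⟨{a0, a1, a2, a3, a4, a5, a6, a7}, by intro x; cases x <;> decide⟩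

def add : F8 → F8 → F8
  | a0, a0 => a0 | a0, a1 => a1 | a0, a2 => a2 | a0, a3 => a3 | a0, a4 => a4 | a0, a5 => a5 | a0, a6 => a6 | a0, a7 => a7
  | a1, a0 => a1 | a1, a1 => a0 | a1, a2 => a6 | a1, a3 => a4 | a1, a4 => a3 | a1, a5 => a7 | a1, a6 => a2 | a1, a7 => a5
  | a2, a0 => a2 | a2, a1 => a6 | a2, a2 => a0 | a2, a3 => a7 | a2, a4 => a5 | a2, a5 => a4 | a2, a6 => a1 | a2, a7 => a3
  | a3, a0 => a3 | a3, a1 => a4 | a3, a2 => a7 | a3, a3 => a0 | a3, a4 => a1 | a3, a5 => a6 | a3, a6 => a5 | a3, a7 => a2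
  | a4, a0 => a4 | a4, a1 => a3 | a4, a2 => a5 | a4, a3 => a1 | a4, a4 => a0 | a4, a5 => a2 | a4, a6 => a7 | a4, a7 => a6
  | a5, a0 => a5 | a5, a1 => a7 | a5, a2 => a4 | a5, a3 => a6 | a5, a4 => a2 | a5, a5 => a0 | a5, a6 => a3 | a5, a7 => a1
  | a6, a0 => a6 | a6, a1 => a2 | a6, a2 => a1 | a6, a3 => a5 | a6, a4 => a7 | a6, a5 => a3 | a6, a6 => a0 | a6, a7 => a4
  | a7, a0 => a7 | a7, a1 => a5 | a7, a2 => a3 | a7, a3 => a2 | a7, a4 => a6 | a7, a5 => a1 | a7, a6 => a4 | a7, a7 => a0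

def mul : F8 → F8 → F8
  | a0, a0 => a0 | a0, a1 => a0 | a0, a2 => a0 | a0, a3 => a0 | a0, a4 => a0 | a0, a5 => a0 | a0, a6 => a0 | a0, a7 => a0
  | a1, a0 => a0 | a1, a1 => a1 | a1, a2 => a2 | a1, a3 => a3 | a1, a4 => a4 | a1, a5 => a5 | a1, a6 => a6 | a1, a7 => a7
  | a2, a0 => a0 | a2, a1 => a2 | a2, a2 => a3 | a2, a3 => a4 | a2, a4 => a5 | a2, a5 => a6 | a2, a6 => a7 | a2, a7 => a1
  | a3, a0 => a0 | a3, a1 => a3 | a3, a2 => a4 | a3, a3 => a5 | a3, a4 => a6 | a3, a5 => a7 | a3, a6 => a1 | a3, a7 => a2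
  | a4, a0 => a0 | a4, a1 => a4 | a4, a2 => a5 | a4, a3 => a6 | a4, a4 => a7 | a4, a5 => a1 | a4, a6 => a2 | a4, a7 => a3
  | a5, a0 => a0 | a5, a1 => a5 | a5, a2 => a6 | a5, a3 => a7 | a5, a4 => a1 | a5, a5 => a2 | a5, a6 => a3 | a5, a7 => a4
  | a6, a0 => a0 | a6, a1 => a6 | a6, a2 => a7 | a6, a3 => a1 | a6, a4 => a2 | a6, a5 => a3 | a6, a6 => a4 | a6, a7 => a5
  | a7, a0 => a0 | a7, a1 => a7 | a7, a2 => a1 | a7, a3 => a2 | a7, a4 => a3 | a7, a5 => a4 | a7, a6 => a5 | a7, a7 => a6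

def inv : F8 → F8
  | a0 => a0
  | a1 => a1
  | a2 => a7
  | a3 => a6
  | a4 => a5
  | a5 => a4
  | a6 => a3
  | a7 => a2

instance : Zero F8 := ⟨a0⟩
instance : One F8 := ⟨a1⟩
instance : Add F8 := ⟨add⟩
instance : Mul F8 := ⟨mul⟩
instance : Neg F8 := ⟨id⟩
instance : Inv F8 := ⟨inv⟩

instance : CommRing F8 where
  add_assoc := by decide +kernel
  zero_add := by decide +kernel
  add_zero := by decide +kernel
  add_comm := by decide +kernel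
  neg_add_cancel := by decide +kernel
  mul_assoc := by decide +kernel
  one_mul := by decide +kernel
  mul_one := by decide +kernel
  mul_comm := by decide +kernel
  left_distrib := by decide +kernel
  right_distrib := by decide +kernel
  zero_mul := by decide +kernel
  mul_zero := by decide +kernel
  nsmul := nsmulRec
  zsmul := zsmulRec

instance : Field F8 where
  exists_pair_ne := ⟨a0, a1, by decide⟩
  mul_inv_cancel := by decide +kernel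
  inv_zero := by decide +kernel
  nnqsmul := _
  nnqsmul_def := fun _ _ => rfl
  qsmul := _
  qsmul_def := fun _ _ => rfl

theorem card_eq : Fintype.card F8 = 8 := by decide

end F8

/-- the field with 64 elements: `re + im * η`, `η * η = η + 1` -/
@[ext] structure F64 : Type where
  re : F8
  im : F8
  deriving DecidableEq

namespace F64

instance : Zero F64 := ⟨⟨0, 0⟩⟩
instance : One F64 := ⟨⟨1, 0⟩⟩
instance : Add F64 := ⟨fun x y => ⟨x.re + y.re, x.im + y.im⟩⟩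
instance : Neg F64 := ⟨fun x => ⟨-x.re, -x.im⟩⟩
instance : Mul F64 := ⟨fun x y =>
  ⟨x.re * y.re + x.im * y.im, x.re * y.im + x.im * y.re + x.im * y.im⟩⟩

theorem zero_re : (0 : F64).re = 0 := rfl
theorem zero_im : (0 : F64).im = 0 := rfl
theorem one_re : (1 : F64).re = 1 := rfl
theorem one_im : (1 : F64).im = 0 := rfl
theorem add_re (x y : F64) : (x + y).re = x.re + y.re := rfl
theorem add_im (x y : F64) : (x + y).im = x.im + y.im := rfl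
theorem neg_re (x : F64) : (-x).re = -x.re := rfl
theorem neg_im (x : F64) : (-x).im = -x.im := rfl
theorem mul_re (x y : F64) : (x * y).re = x.re * y.re + x.im * y.im := rfl
theorem mul_im (x y : F64) : (x * y).im = x.re * y.im + x.im * y.re + x.im * y.im := rfl

instance : CommRing F64 where
  add_assoc := by intro a b c; ext <;> simp only [add_re, add_im] <;> ring
  zero_add := by intro a; ext <;> simp only [add_re, add_im, zero_re, zero_im] <;> ring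
  add_zero := by intro a; ext <;> simp only [add_re, add_im, zero_re, zero_im] <;> ring
  add_comm := by intro a b; ext <;> simp only [add_re, add_im] <;> ring
  neg_add_cancel := by
    intro a; ext <;> simp only [add_re, add_im, neg_re, neg_im, zero_re, zero_im] <;> ring
  mul_assoc := by
    intro a b c; ext <;> simp only [mul_re, mul_im] <;> ring
  one_mul := by
    intro a; ext <;> simp only [mul_re, mul_im, one_re, one_im] <;> ring
  mul_one := by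
    intro a; ext <;> simp only [mul_re, mul_im, one_re, one_im] <;> ring
  mul_comm := by intro a b; ext <;> simp only [mul_re, mul_im] <;> ring
  left_distrib := by
    intro a b c; ext <;> simp only [mul_re, mul_im, add_re, add_im] <;> ring
  right_distrib := by
    intro a b c; ext <;> simp only [mul_re, mul_im, add_re, add_im] <;> ring
  zero_mul := by
    intro a; ext <;> simp only [mul_re, mul_im, zero_re, zero_im] <;> ring
  mul_zero := by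
    intro a; ext <;> simp only [mul_re, mul_im, zero_re, zero_im] <;> ring
  nsmul := nsmulRec
  zsmul := zsmulRec

/-- multiplication by `x` in the basis `1, η` -/
def rhoFun (x : F64) : Matrix (Fin 2) (Fin 2) F8 :=
  !![x.re, x.im; x.im, x.re + x.im]

/-- the regular representation over the eight-element field -/
def rho : F64 →+* Matrix (Fin 2) (Fin 2) F8 where
  toFun := rhoFun
  map_one' := by
    ext a b; fin_cases a <;> fin_cases b <;> decide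
  map_zero' := by
    ext a b; fin_cases a <;> fin_cases b <;> decide
  map_add' := by
    intro x y
    ext a b; fin_cases a <;> fin_cases b <;> simp [rhoFun, add_re, add_im] <;> ring
  map_mul' := by
    intro x y
    ext a b
    fin_cases a <;> fin_cases b <;>
      simp [rhoFun, mul_re, mul_im, Matrix.mul_apply, Fin.sum_univ_two] <;> ring

/-- the candidate inverse -/
def cinv (x : F64) : F64 :=
  let N := x.re * x.re + x.re * x.im + x.im * x.im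
  ⟨N⁻¹ * (x.re + x.im), N⁻¹ * x.im⟩

theorem mul_cinv (x : F64) (hx : x ≠ 0) : x * cinv x = 1 := by
  rcases x with ⟨a, b⟩
  revert hx
  revert a b
  decide +kernel

theorem isUnit_of_ne {x : F64} (hx : x ≠ 0) : IsUnit x :=
  IsUnit.of_mul_eq_one _ (mul_cinv x hx)

end F64

namespace T8

/-- The thirty-six points (suitably scaled). -/
def hp : Fin 36 → Fin 3 → F64 := ![
  ![⟨.a1, .a0⟩, ⟨.a1, .a7⟩, ⟨.a3, .a3⟩],
  ![⟨.a1, .a0⟩, ⟨.a0, .a7⟩, ⟨.a3, .a0⟩],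
  ![⟨.a3, .a7⟩, ⟨.a5, .a7⟩, ⟨.a1, .a0⟩],
  ![⟨.a3, .a4⟩, ⟨.a6, .a4⟩, ⟨.a4, .a3⟩],
  ![⟨.a4, .a6⟩, ⟨.a2, .a3⟩, ⟨.a6, .a7⟩],
  ![⟨.a1, .a0⟩, ⟨.a4, .a0⟩, ⟨.a1, .a6⟩],
  ![⟨.a0, .a7⟩, ⟨.a3, .a6⟩, ⟨.a3, .a1⟩],
  ![⟨.a3, .a7⟩, ⟨.a1, .a7⟩, ⟨.a1, .a2⟩],
  ![⟨.a4, .a4⟩, ⟨.a1, .a1⟩, ⟨.a2, .a1⟩],
  ![⟨.a3, .a7⟩, ⟨.a1, .a6⟩, ⟨.a0, .a2⟩],
  ![⟨.a3, .a7⟩, ⟨.a6, .a6⟩, ⟨.a0, .a5⟩],
  ![⟨.a1, .a0⟩, ⟨.a5, .a2⟩, ⟨.a2, .a7⟩],
  ![⟨.a0, .a7⟩, ⟨.a4, .a0⟩, ⟨.a0, .a4⟩],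
  ![⟨.a4, .a6⟩, ⟨.a5, .a1⟩, ⟨.a2, .a4⟩],
  ![⟨.a0, .a7⟩, ⟨.a2, .a4⟩, ⟨.a1, .a6⟩],
  ![⟨.a0, .a7⟩, ⟨.a1, .a5⟩, ⟨.a2, .a2⟩],
  ![⟨.a1, .a0⟩, ⟨.a0, .a2⟩, ⟨.a2, .a0⟩],
  ![⟨.a3, .a7⟩, ⟨.a2, .a3⟩, ⟨.a2, .a6⟩],
  ![⟨.a0, .a7⟩, ⟨.a0, .a6⟩, ⟨.a7, .a1⟩],
  ![⟨.a4, .a4⟩, ⟨.a5, .a5⟩, ⟨.a6, .a3⟩],
  ![⟨.a3, .a4⟩, ⟨.a1, .a2⟩, ⟨.a0, .a7⟩],
  ![⟨.a3, .a4⟩, ⟨.a0, .a5⟩, ⟨.a3, .a2⟩],
  ![⟨.a4, .a6⟩, ⟨.a0, .a7⟩, ⟨.a3, .a3⟩],
  ![⟨.a1, .a7⟩, ⟨.a4, .a0⟩, ⟨.a7, .a0⟩],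
  ![⟨.a1, .a7⟩, ⟨.a5, .a6⟩, ⟨.a1, .a5⟩],
  ![⟨.a3, .a4⟩, ⟨.a7, .a0⟩, ⟨.a1, .a5⟩],
  ![⟨.a3, .a4⟩, ⟨.a2, .a4⟩, ⟨.a4, .a6⟩],
  ![⟨.a3, .a7⟩, ⟨.a0, .a5⟩, ⟨.a2, .a1⟩],
  ![⟨.a3, .a7⟩, ⟨.a5, .a3⟩, ⟨.a4, .a7⟩],
  ![⟨.a1, .a0⟩, ⟨.a4, .a5⟩, ⟨.a2, .a6⟩],
  ![⟨.a4, .a6⟩, ⟨.a4, .a3⟩, ⟨.a4, .a4⟩],
  ![⟨.a1, .a7⟩, ⟨.a7, .a5⟩, ⟨.a6, .a4⟩],
  ![⟨.a1, .a0⟩, ⟨.a3, .a2⟩, ⟨.a7, .a5⟩],
  ![⟨.a3, .a7⟩, ⟨.a2, .a0⟩, ⟨.a5, .a3⟩],
  ![⟨.a4, .a4⟩, ⟨.a1, .a0⟩, ⟨.a7, .a1⟩],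
  ![⟨.a0, .a0⟩, ⟨.a1, .a0⟩, ⟨.a0, .a0⟩]]

/-- a three by three determinant -/
def det3 (x y z : Fin 3 → F64) : F64 :=
  x 0 * (y 1 * z 2 + y 2 * z 1) + x 1 * (y 0 * z 2 + y 2 * z 0) + x 2 * (y 0 * z 1 + y 1 * z 0)

set_option maxRecDepth 100000 in
theorem det3_ne : ∀ a b c : Fin 36, a ≠ b → a ≠ c → b ≠ c → det3 (hp a) (hp b) (hp c) ≠ 0 := by
  decide +kernel

/-- the parity-check blocks -/
def Hc : Fin 36 → Matrix (Fin 3 × Fin 2) (Fin 2) F8 :=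
  fun j p b => F64.rhoFun (hp j p.1) p.2 b

theorem sub_eq_add8 : ∀ a b : F8, a - b = a + b := by decide +kernel

theorem sub_eq_add64 (a b : F64) : a - b = a + b := by
  have h : -b = b := by
    ext
    · rfl
    · rfl
  rw [sub_eq_add_neg, h]

theorem det_eq (A : Matrix (Fin 3) (Fin 3) F64) :
    A.det = det3 (fun k => A k 0) (fun k => A k 1) (fun k => A k 2) := by
  rw [Matrix.det_fin_three]
  simp only [sub_eq_add64, det3]
  ring

/-- passing to blocks -/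
noncomputable def toBlocks :
    Matrix (Fin 3) (Fin 3) F64 →+* Matrix (Fin 3 × Fin 2) (Fin 3 × Fin 2) F8 :=
  (Matrix.compRingEquiv (Fin 3) (Fin 2) F8).toRingHom.comp F64.rho.mapMatrix

theorem mds : IsMDS Hc := by
  intro I hI
  have h : blockOf Hc I = toBlocks (fun k c => hp (I c) k) := by
    ext ⟨k, a⟩ ⟨c, b⟩
    rfl
  rw [h]
  apply IsUnit.map
  rw [Matrix.isUnit_iff_isUnit_det]
  apply F64.isUnit_of_ne
  rw [det_eq]
  apply det3_ne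
  · exact fun h => absurd (hI h) (by decide)
  · exact fun h => absurd (hI h) (by decide)
  · exact fun h => absurd (hI h) (by decide)

/-- which repair matrix is used -/
def kind (i : Fin 36) : Fin 2 := if i.val < 18 then 1 else 0

/-- the entries of the two repair matrices -/
def Mt : Fin 2 → Fin 2 → Fin 3 → Fin 2 → F8 := ![
  ![![![.a4, .a0], ![.a0, .a1], ![.a4, .a0]], ![![.a0, .a2], ![.a4, .a0], ![.a0, .a2]]],
  ![![![.a2, .a5], ![.a0, .a1], ![.a6, .a1]], ![![.a3, .a0], ![.a0, .a1], ![.a4, .a5]]]]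

/-- the repair matrix for the node `i` -/
def Mc (i : Fin 36) : Matrix (Fin 2) (Fin 3 × Fin 2) F8 :=
  fun a p => Mt (kind i) a p.1 p.2

/-- the product `M_i H_j` -/
def pr (i j : Fin 36) (a b : Fin 2) : F8 :=
  (Mt (kind i) a 0 0 * F64.rhoFun (hp j 0) 0 b + Mt (kind i) a 0 1 * F64.rhoFun (hp j 0) 1 b) +
  (Mt (kind i) a 1 0 * F64.rhoFun (hp j 1) 0 b + Mt (kind i) a 1 1 * F64.rhoFun (hp j 1) 1 b) +
  (Mt (kind i) a 2 0 * F64.rhoFun (hp j 2) 0 b + Mt (kind i) a 2 1 * F64.rhoFun (hp j 2) 1 b)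

theorem mul_eq_pr (i j : Fin 36) : Mc i * Hc j = fun a b => pr i j a b := by
  ext a b
  rw [Matrix.mul_apply, Fintype.sum_prod_type, Fin.sum_univ_three]
  simp only [Fin.sum_univ_two]
  rfl

theorem rep_det : ∀ i : Fin 36, pr i i 0 0 * pr i i 1 1 + pr i i 0 1 * pr i i 1 0 ≠ 0 := by
  decide +kernel

theorem rep (i : Fin 36) : IsRepair Hc i (Mc i) := by
  unfold IsRepair
  rw [mul_eq_pr, Matrix.isUnit_iff_isUnit_det, Matrix.det_fin_two, isUnit_iff_ne_zero,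
    sub_eq_add8]
  exact rep_det i

/-- computable count of nonzero columns -/
def nzc (i j : Fin 36) : ℕ :=
  (if pr i j 0 0 = 0 ∧ pr i j 1 0 = 0 then 0 else 1) +
  (if pr i j 0 1 = 0 ∧ pr i j 1 1 = 0 then 0 else 1)

theorem nz_eq (i j : Fin 36) : nz (Mc i * Hc j) = nzc i j := by
  classical
  rw [mul_eq_pr]
  unfold nz
  rw [Finset.card_filter, Fin.sum_univ_two]
  unfold nzc
  congr 1
  · by_cases h : pr i j 0 0 = 0 ∧ pr i j 1 0 = 0
    · rw [if_pos h, if_neg]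
      rintro ⟨a, ha⟩
      fin_cases a
      · exact ha h.1
      · exact ha h.2
    · rw [if_neg h, if_pos]
      by_contra hc
      apply h
      constructor
      · by_contra h0; exact hc ⟨0, h0⟩
      · by_contra h0; exact hc ⟨1, h0⟩
  · by_cases h : pr i j 0 1 = 0 ∧ pr i j 1 1 = 0
    · rw [if_pos h, if_neg]
      rintro ⟨a, ha⟩
      fin_cases a
      · exact ha h.1
      · exact ha h.2
    · rw [if_neg h, if_pos]
      by_contra hc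
      apply h
      constructor
      · by_contra h0; exact hc ⟨0, h0⟩
      · by_contra h0; exact hc ⟨1, h0⟩

theorem nz_sum : ∀ i : Fin 36, (∑ j ∈ univ.erase i, nzc i j) = 52 := by
  decide +kernel

theorem io_eq (i : Fin 36) : IOc Hc i (Mc i) = 52 := by
  unfold IOc
  rw [← nz_sum i]
  exact Finset.sum_congr rfl fun j _ => nz_eq i j

theorem bw_ge (i : Fin 36) (M : Matrix (Fin 2) (Fin 3 × Fin 2) F8) (hM : IsRepair Hc i M) :
    52 ≤ BW Hc i M := by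
  have h := deficiency_le (by norm_num) Hc mds i M hM
  rw [F8.card_eq] at h
  have h2 : (∑ j ∈ univ.erase i, (2 - (M * Hc j).rank)) ≤ 18 := by omega
  have h3 : (∑ j ∈ univ.erase i, (2 - (M * Hc j).rank)) +
      (∑ j ∈ univ.erase i, (M * Hc j).rank) = 70 := by
    rw [← Finset.sum_add_distrib]
    rw [Finset.sum_congr rfl (g := fun _ => 2)]
    · rw [Finset.sum_const, Finset.card_erase_of_mem (Finset.mem_univ _)]
      simp
    · intro j _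
      have := (M * Hc j).rank_le_width
      omega
  unfold BW
  omega

theorem beta_eq (i : Fin 36) : beta Hc i = 52 := by
  have h1 : BW Hc i (Mc i) = 52 :=
    le_antisymm ((BW_le_IO Hc i (Mc i)).trans (io_eq i).le) (bw_ge i _ (rep i))
  apply le_antisymm
  · exact Nat.sInf_le ⟨Mc i, rep i, h1⟩
  · obtain ⟨M, hM, hb⟩ := Nat.sInf_mem
      (⟨52, Mc i, rep i, h1⟩ : {b | ∃ M, IsRepair Hc i M ∧ BW Hc i M = b}.Nonempty)
    unfold beta
    rw [← hb]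
    exact bw_ge i M hM

theorem gamma_eq (i : Fin 36) : gamma Hc i = 52 := by
  apply le_antisymm
  · exact Nat.sInf_le ⟨Mc i, rep i, io_eq i⟩
  · obtain ⟨M, hM, hb⟩ := Nat.sInf_mem
      (⟨52, Mc i, rep i, io_eq i⟩ : {b | ∃ M, IsRepair Hc i M ∧ IOc Hc i M = b}.Nonempty)
    unfold gamma
    rw [← hb]
    exact (bw_ge i M hM).trans (BW_le_IO Hc i M)

end T8

end Pool.Agent.MDSR
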